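import Pool.Agent.P.MP_192c68_an.Gadget

/-! The Cauchy theorem on a thin parallelogram. -/

namespace Pool.Agent.P.MP_192c68_an

open Set Filter Topology

def Par (z0 e v : ℂ) : Set ℂ :=
  (fun x : ℝ × ℝ => z0 + x.1 * e + x.2 * v) '' (Icc 0 1 ×ˢ Icc 0 1)

theorem mem_par {z0 e v : ℂ} {s t : ℝ} (hs : s ∈ Icc (0 : ℝ) 1) (ht : t ∈ Icc (0 : ℝ) 1) :
    z0 + s * e + t * v ∈ Par z0 e v := ⟨(s, t), ⟨hs, ht⟩, rfl⟩

theorem good_par (z0 : ℂ) {e : ℂ} (v : ℂ) (he : e ≠ 0) : Good (Par z0 e v) := by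
  refine ⟨(isCompact_Icc.prod isCompact_Icc).image (by fun_prop), ?_, ?_⟩
  · rintro _ ⟨x, hx, rfl⟩ _ ⟨y, hy, rfl⟩ a b ha hb hab
    refine ⟨a • x + b • y, ((convex_Icc 0 1).prod (convex_Icc 0 1)) hx hy ha hb hab, ?_⟩
    have : (a : ℂ) + b = 1 := by exact_mod_cast hab
    simp only [Prod.fst_add, Prod.snd_add, Prod.smul_fst, Prod.smul_snd, smul_eq_mul,
      Complex.real_smul]
    push_cast
    linear_combination (-z0) * this
  · refine ⟨_, mem_par (s := 0) (t := 0) (by simp) (by simp), _,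
      mem_par (s := 1) (t := 0) (by simp) (by simp), ?_⟩
    simpa using he

theorem mem_int_par {z0 v : ℂ} (hv : v.im ≠ 0) {x : ℝ × ℝ} (hx : x ∈ Ioo (0 : ℝ) 1 ×ˢ Ioo (0 : ℝ) 1) :
    z0 + x.1 * (1 + v) + x.2 * v ∈ interior (Par z0 (1 + v) v) := by
  let L : ℝ × ℝ →ₗ[ℝ] ℂ :=
    { toFun := fun x => x.1 * (1 + v) + x.2 * v
      map_add' := fun x y => by simp only [Prod.fst_add, Prod.snd_add]; push_cast; ring
      map_smul' := fun c x => by
        simp only [Prod.smul_fst, Prod.smul_snd, smul_eq_mul, Complex.real_smul, RingHom.id_apply]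
        push_cast; ring }
  have hL : Function.Surjective L := by
    intro w
    refine ⟨(w.re - w.im / v.im * v.re, w.im / v.im - (w.re - w.im / v.im * v.re)), ?_⟩
    apply Complex.ext
    · simp [L]; ring
    · simp [L]; field_simp; ring
  have ho : IsOpenMap (fun x : ℝ × ℝ => z0 + x.1 * (1 + v) + x.2 * v) := by
    have e : (fun x : ℝ × ℝ => z0 + x.1 * (1 + v) + x.2 * v) = (fun z => z0 + z) ∘ L := by
      funext x; simp [L, add_assoc]
    rw [e]
    exact (isOpenMap_add_left z0).comp (L.isOpenMap_of_finiteDimensional hL)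
  apply ho.image_interior_subset
  refine mem_image_of_mem _ ?_
  rw [interior_prod_eq, interior_Icc]
  exact hx

theorem par_cauchy {z0 v : ℂ} (hv : v.im ≠ 0) {h : ℂ → ℂ}
    (hc : ContinuousOn h (Par z0 (1 + v) v))
    (hd : DifferentiableOn ℂ h (interior (Par z0 (1 + v) v))) :
    (1 + v) * ((∫ s in (0 : ℝ)..1, h (z0 + s * (1 + v))) -
        ∫ s in (0 : ℝ)..1, h (z0 + s * (1 + v) + v)) =
      v * ((∫ t in (0 : ℝ)..1, h (z0 + t * v)) - ∫ t in (0 : ℝ)..1, h (z0 + (1 + v) + t * v)) := by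
  set e := 1 + v with he
  let z : ℝ × ℝ → ℂ := fun x => z0 + x.1 * e + x.2 * v
  let L : ℝ × ℝ →L[ℝ] ℂ := (ContinuousLinearMap.fst ℝ ℝ ℝ).smulRight e +
    (ContinuousLinearMap.snd ℝ ℝ ℝ).smulRight v
  have hz : ∀ x, HasFDerivAt z L x := by
    intro x
    have := (L.hasFDerivAt (x := x)).const_add z0
    have e1 : z = fun y => z0 + L y := by
      funext y
      simp [z, L, add_assoc]
    rw [e1]
    exact this
  let D : ℝ × ℝ → ℝ × ℝ →L[ℝ] ℂ := fun x => deriv h (z x) • L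
  have hD : ∀ x ∈ Ioo (0 : ℝ) 1 ×ˢ Ioo (0 : ℝ) 1, HasFDerivAt (fun y => h (z y)) (D x) x := by
    intro x hx
    have h1 : HasDerivAt h (deriv h (z x)) (z x) :=
      (hd.differentiableAt (isOpen_interior.mem_nhds (mem_int_par hv hx))).hasDerivAt
    have h2 := (h1.hasFDerivAt.restrictScalars ℝ).comp x (hz x)
    refine HasFDerivAt.congr_fderiv h2 ?_
    ext <;> simp [D, L, mul_comm]
  have hcz : ContinuousOn (fun y => h (z y)) (uIcc (0 : ℝ) 1 ×ˢ uIcc (0 : ℝ) 1) := by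
    refine hc.comp (by simp only [z]; fun_prop) ?_
    intro x hx
    rw [uIcc_of_le zero_le_one] at hx
    exact mem_par hx.1 hx.2
  have key := MeasureTheory.integral2_divergence_prod_of_hasFDerivAt_off_countable
    (fun y => v * h (z y)) (fun y => -e * h (z y)) (fun x => v • D x) (fun x => -e • D x)
    0 0 1 1 ∅ countable_empty (continuousOn_const.mul hcz) (continuousOn_const.mul hcz)
    (fun x hx => (hD x (by simpa using hx)).const_mul v)
    (fun x hx => (hD x (by simpa using hx)).const_mul (-e)) ?_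
  · have e0 : ∀ x : ℝ × ℝ, (v • D x) (1, 0) + (-e • D x) (0, 1) = 0 := by
      intro x; simp [D, L]; ring
    simp only [e0, intervalIntegral.integral_zero, intervalIntegral.integral_const_mul, z] at key
    simp only [Complex.ofReal_one, Complex.ofReal_zero, one_mul, zero_mul, add_zero] at key
    linear_combination -key
  · have e0 : (fun x : ℝ × ℝ => (v • D x) (1, 0) + (-e • D x) (0, 1)) = fun _ => 0 := by
      funext x; simp [D, L]; ring
    rw [e0]
    exact MeasureTheory.integrableOn_zero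

theorem norm_int_sub_le {f g : ℝ → ℂ} (hf : ContinuousOn f (Icc 0 1)) (hg : ContinuousOn g (Icc 0 1))
    {C : ℝ} (h : ∀ s ∈ Icc (0 : ℝ) 1, ‖f s - g s‖ ≤ C) :
    ‖(∫ s in (0 : ℝ)..1, f s) - ∫ s in (0 : ℝ)..1, g s‖ ≤ C := by
  rw [← intervalIntegral.integral_sub (hf.intervalIntegrable_of_Icc zero_le_one)
    (hg.intervalIntegrable_of_Icc zero_le_one)]
  have := intervalIntegral.norm_integral_le_of_norm_le_const (a := 0) (b := 1) (C := C)
    (f := fun s => f s - g s) (fun s hs => h s (by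
      rw [uIoc_of_le zero_le_one] at hs; exact Ioc_subset_Icc_self hs))
  simpa using this

theorem norm_int_sub_const_le {f : ℝ → ℂ} (hf : ContinuousOn f (Icc 0 1)) {c : ℂ}
    {C : ℝ} (h : ∀ s ∈ Icc (0 : ℝ) 1, ‖f s - c‖ ≤ C) : ‖(∫ s in (0 : ℝ)..1, f s) - c‖ ≤ C := by
  have := norm_int_sub_le hf (g := fun _ => c) continuousOn_const h
  simpa using this

theorem contOn_of_lip {h : ℂ → ℂ} {P : Set ℂ} {B : ℝ} (hB : 0 ≤ B)
    (hl : ∀ u ∈ P, ∀ w ∈ P, ‖h u - h w‖ ≤ B * ‖u - w‖) : ContinuousOn h P := by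
  have : LipschitzOnWith ⟨B, hB⟩ h P := by
    refine LipschitzOnWith.of_dist_le_mul fun u hu w hw => ?_
    rw [dist_eq_norm, dist_eq_norm]
    exact hl u hu w hw
  exact this.continuousOn

theorem par_est {z0 v : ℂ} (hv : v.im ≠ 0) {h : ℂ → ℂ} {B : ℝ} (hB : 0 ≤ B)
    (hl : ∀ u ∈ Par z0 (1 + v) v, ∀ w ∈ Par z0 (1 + v) v, ‖h u - h w‖ ≤ B * ‖u - w‖)
    (hd : DifferentiableOn ℂ h (interior (Par z0 (1 + v) v))) :
    ‖(∫ s in (0 : ℝ)..1, h (z0 + s * (1 + v))) - (∫ s in (0 : ℝ)..1, h (z0 + s * (1 + v) + v)) -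
      v * (h z0 - h (z0 + (1 + v) + v))‖ ≤ 3 * ‖v‖ ^ 2 * B := by
  have hc := contOn_of_lip hB hl
  have key := par_cauchy hv hc hd
  have he : (1 + v) ≠ 0 := fun h0 => hv (by simpa using congrArg Complex.im h0)
  have m1 : ∀ t ∈ Icc (0 : ℝ) 1, z0 + t * v ∈ Par z0 (1 + v) v := fun t ht => by
    simpa using mem_par (z0 := z0) (e := 1 + v) (v := v) (s := 0) (by simp) ht
  have m2 : ∀ t ∈ Icc (0 : ℝ) 1, z0 + (1 + v) + t * v ∈ Par z0 (1 + v) v := fun t ht => by
    simpa using mem_par (z0 := z0) (e := 1 + v) (v := v) (s := 1) (by simp) ht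
  have c1 : ContinuousOn (fun t : ℝ => h (z0 + t * v)) (Icc 0 1) := hc.comp (by fun_prop) m1
  have c2 : ContinuousOn (fun t : ℝ => h (z0 + (1 + v) + t * v)) (Icc 0 1) :=
    hc.comp (by fun_prop) m2
  set l := ∫ t in (0 : ℝ)..1, h (z0 + t * v)
  set r := ∫ t in (0 : ℝ)..1, h (z0 + (1 + v) + t * v)
  have b1 : ‖l - r‖ ≤ B * ‖1 + v‖ := norm_int_sub_le c1 c2 fun t ht => by
    have := hl _ (m1 t ht) _ (m2 t ht)
    rwa [show z0 + t * v - (z0 + (1 + v) + t * v) = -(1 + v) by ring, norm_neg] at this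
  have b2 : ‖l - h z0‖ ≤ B * ‖v‖ := norm_int_sub_const_le c1 fun t ht => by
    have := hl _ (m1 t ht) _ (by simpa using m1 0 (by simp))
    refine this.trans ?_
    gcongr
    rw [add_sub_cancel_left, norm_mul, Complex.norm_real, Real.norm_eq_abs, abs_of_nonneg ht.1]
    exact mul_le_of_le_one_left (norm_nonneg _) ht.2
  have b3 : ‖r - h (z0 + (1 + v) + v)‖ ≤ B * ‖v‖ := norm_int_sub_const_le c2 fun t ht => by
    have := hl _ (m2 t ht) _ (by simpa using m2 1 (by simp))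
    refine this.trans ?_
    gcongr
    rw [show z0 + (1 + v) + t * v - (z0 + (1 + v) + v) = -(((1 - t : ℝ) : ℂ) * v) by push_cast; ring,
      norm_neg, norm_mul, Complex.norm_real, Real.norm_eq_abs, abs_of_nonneg (by linarith [ht.2])]
    exact mul_le_of_le_one_left (norm_nonneg _) (by linarith [ht.1])
  generalize (∫ s in (0 : ℝ)..1, h (z0 + s * (1 + v))) = O at key ⊢
  generalize (∫ s in (0 : ℝ)..1, h (z0 + s * (1 + v) + v)) = I at key ⊢
  generalize h (z0 + (1 + v) + v) = w at b3 ⊢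
  have e1 : O - I - v * (h z0 - w) =
      v * (l - h z0) - v * (r - w) - v ^ 2 / (1 + v) * (l - r) := by
    field_simp
    linear_combination key
  rw [e1]
  have hn : 0 < ‖1 + v‖ := norm_pos_iff.2 he
  calc _ ≤ ‖v * (l - h z0)‖ + ‖v * (r - w)‖ + ‖v ^ 2 / (1 + v) * (l - r)‖ :=
        (norm_sub_le _ _).trans (by gcongr; exact norm_sub_le _ _)
    _ ≤ ‖v‖ * (B * ‖v‖) + ‖v‖ * (B * ‖v‖) + ‖v‖ ^ 2 / ‖1 + v‖ * (B * ‖1 + v‖) := by
        simp only [norm_mul, norm_div, norm_pow]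
        gcongr
    _ = _ := by field_simp; ring

end Pool.Agent.P.MP_192c68_an
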