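import Mathlib

/-! Gadgets: finite unions of convex pieces joining two points, with a short holomorphic
length and a long geodesic length. -/

namespace Pool.Agent.P.MP_192c68_an

open Set Filter Topology

def Good (P : Set ℂ) : Prop := IsCompact P ∧ Convex ℝ P ∧ P.Nontrivial

def Adm (𝒜 : Set (Set ℂ)) (h : ℂ → ℂ) (B : ℝ) : Prop :=
  ∀ P ∈ 𝒜, (∀ u ∈ P, ∀ v ∈ P, ‖h u - h v‖ ≤ B * ‖u - v‖) ∧ DifferentiableOn ℂ h (interior P)

def Lip1 (𝒜 : Set (Set ℂ)) (F : ℂ → ℝ) : Prop :=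
  ∀ P ∈ 𝒜, ∀ u ∈ P, ∀ v ∈ P, |F u - F v| ≤ ‖u - v‖

def OBox (p q : ℂ) (ρ : ℝ) : Set ℂ :=
  {z | 0 < ((z - p) / (q - p)).re ∧ ((z - p) / (q - p)).re < 1 ∧ |((z - p) / (q - p)).im| < ρ}

def Gad (p q : ℂ) (ρ H S : ℝ) : Prop :=
  ∃ 𝒜 : Set (Set ℂ), 𝒜.Finite ∧ (∀ P ∈ 𝒜, Good P) ∧ p ∈ ⋃₀ 𝒜 ∧ q ∈ ⋃₀ 𝒜 ∧
    (∀ P ∈ 𝒜, ∀ z ∈ P, z = p ∨ z = q ∨ z ∈ OBox p q ρ) ∧
    (∃ F : ℂ → ℝ, Lip1 𝒜 F ∧ S * ‖q - p‖ ≤ F q - F p) ∧
    ∀ (h : ℂ → ℂ) (B : ℝ), 0 ≤ B → Adm 𝒜 h B → ‖h q - h p‖ ≤ H * B * ‖q - p‖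

def Mat (H S : ℝ) : Prop := ∀ p q : ℂ, p ≠ q → ∀ ρ : ℝ, 0 < ρ → Gad p q ρ H S

theorem isOpen_OBox (p q : ℂ) (ρ : ℝ) : IsOpen (OBox p q ρ) := by
  have h : Continuous fun z : ℂ => (z - p) / (q - p) := by fun_prop
  refine (isOpen_lt continuous_const (Complex.continuous_re.comp h)).inter
    ((isOpen_lt (Complex.continuous_re.comp h) continuous_const).inter
      (isOpen_lt (Complex.continuous_im.comp h).abs continuous_const))

theorem seg_mem {a b z : ℂ} : z ∈ segment ℝ a b ↔ ∃ t : ℝ, 0 ≤ t ∧ t ≤ 1 ∧ z = a + t * (b - a) := by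
  rw [segment_eq_image']
  constructor
  · rintro ⟨t, ⟨h0, h1⟩, rfl⟩
    exact ⟨t, h0, h1, by simp⟩
  · rintro ⟨t, h0, h1, rfl⟩
    exact ⟨t, ⟨h0, h1⟩, by simp⟩

theorem compact_seg (a b : ℂ) : IsCompact (segment ℝ a b) := by
  rw [segment_eq_image']
  exact isCompact_Icc.image (by fun_prop)

theorem good_seg {a b : ℂ} (h : a ≠ b) : Good (segment ℝ a b) :=
  ⟨compact_seg a b, convex_segment a b, a, left_mem_segment ℝ a b, b, right_mem_segment ℝ a b, h⟩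

theorem Gad.mono {p q : ℂ} {ρ H S H' S' : ℝ} (h : Gad p q ρ H S) (hH : H ≤ H') (hS : S' ≤ S) :
    Gad p q ρ H' S' := by
  obtain ⟨𝒜, h1, h2, h3, h4, h5, ⟨F, hF, hF'⟩, h6⟩ := h
  refine ⟨𝒜, h1, h2, h3, h4, h5, ⟨F, hF, le_trans (by gcongr) hF'⟩, fun h B hB hA => ?_⟩
  exact (h6 h B hB hA).trans (by gcongr)

theorem mat_base : Mat 1 1 := by
  intro p q hpq ρ hρ
  have hqp : q - p ≠ 0 := sub_ne_zero.2 hpq.symm
  refine ⟨{segment ℝ p q}, finite_singleton _, ?_, ?_, ?_, ?_, ?_, ?_⟩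
  · rintro P rfl; exact good_seg hpq
  · simpa using left_mem_segment ℝ p q
  · simpa using right_mem_segment ℝ p q
  · rintro P rfl z hz
    obtain ⟨t, h0, h1, rfl⟩ := seg_mem.1 hz
    rcases h0.eq_or_lt with h | h
    · left; simp [← h]
    rcases h1.eq_or_lt with h' | h'
    · right; left; simp [h']
    right; right
    have : (p + t * (q - p) - p) / (q - p) = t := by field_simp; ring
    simp only [OBox, mem_ofPred_eq, this]
    simp [h, h', hρ]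
  · refine ⟨fun z => ‖z - p‖, ?_, by simp⟩
    rintro P rfl u _ v _
    have := abs_norm_sub_norm_le (u - p) (v - p)
    simpa using this
  · intro h B _ hA
    have := (hA _ rfl).1 q (right_mem_segment ℝ p q) p (left_mem_segment ℝ p q)
    simpa using this

theorem Gad.transfer {p q p' q' : ℂ} {ρ H S : ℝ} (hG : Gad p q ρ H S) (hpq : p ≠ q)
    (hpq' : p' ≠ q') : Gad p' q' ρ H S := by
  obtain ⟨𝒜, h1, h2, h3, h4, h5, ⟨F, hF, hF'⟩, h6⟩ := hG
  have hqp : q - p ≠ 0 := sub_ne_zero.2 hpq.symm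
  have hqp' : q' - p' ≠ 0 := sub_ne_zero.2 hpq'.symm
  set c : ℂ := (q' - p') / (q - p) with hc
  have hc0 : c ≠ 0 := div_ne_zero hqp' hqp
  let T : ℂ → ℂ := fun z => p' + c * (z - p)
  let T' : ℂ → ℂ := fun z => p + (z - p') / c
  have hTT : ∀ z, T' (T z) = z := fun z => by simp only [T, T']; field_simp; ring
  have hTp : T p = p' := by simp [T]
  have hTq : T q = q' := by simp only [T, hc]; field_simp; ring
  have hsub : ∀ u v, T u - T v = c * (u - v) := fun u v => by simp only [T]; ring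
  have hcn : ‖q' - p'‖ = ‖c‖ * ‖q - p‖ := by rw [← hTp, ← hTq, hsub, norm_mul]
  have hTc : Continuous T := by simp only [T]; fun_prop
  have hTo : IsOpenMap T := by
    have e : T = (fun z => p' + z) ∘ (fun z => c * z) ∘ (fun z => z - p) := rfl
    rw [e]
    exact (isOpenMap_add_left p').comp ((Homeomorph.mulLeft₀ c hc0).isOpenMap.comp
      (isOpenMap_sub_right p))
  have hw : ∀ z, (T z - p') / (q' - p') = (z - p) / (q - p) := fun z => by
    simp only [T, hc]; field_simp; ring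
  refine ⟨(fun P => T '' P) '' 𝒜, h1.image _, ?_, ?_, ?_, ?_, ?_, ?_⟩
  · rintro _ ⟨P, hP, rfl⟩
    obtain ⟨g1, g2, a, ha, b, hb, hab⟩ := h2 P hP
    refine ⟨g1.image hTc, ?_, T a, mem_image_of_mem _ ha, T b, mem_image_of_mem _ hb, ?_⟩
    · rintro _ ⟨x, hx, rfl⟩ _ ⟨y, hy, rfl⟩ s t hs ht hst
      refine ⟨s • x + t • y, g2 hx hy hs ht hst, ?_⟩
      have : (s : ℂ) + t = 1 := by exact_mod_cast hst
      simp only [T, Complex.real_smul]
      linear_combination (c * p - p') * this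
    · intro h
      apply hab
      rw [← hTT a, h, hTT]
  · obtain ⟨P, hP, hp⟩ := h3
    exact ⟨T '' P, ⟨P, hP, rfl⟩, p, hp, hTp⟩
  · obtain ⟨P, hP, hp⟩ := h4
    exact ⟨T '' P, ⟨P, hP, rfl⟩, q, hp, hTq⟩
  · rintro _ ⟨P, hP, rfl⟩ _ ⟨z, hz, rfl⟩
    rcases h5 P hP z hz with rfl | rfl | h
    · exact Or.inl hTp
    · exact Or.inr (Or.inl hTq)
    · right; right
      simpa only [OBox, mem_ofPred_eq, hw] using h
  · refine ⟨fun z => ‖c‖ * F (T' z), ?_, ?_⟩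
    · rintro _ ⟨P, hP, rfl⟩ _ ⟨u, hu, rfl⟩ _ ⟨v, hv, rfl⟩
      simp only [hTT, hsub, norm_mul]
      rw [← mul_sub, abs_mul, abs_norm]
      gcongr
      exact hF P hP u hu v hv
    · have e1 : T' q' = q := by rw [← hTq, hTT]
      have e2 : T' p' = p := by rw [← hTp, hTT]
      simp only [e1, e2]
      rw [hcn, ← mul_sub, mul_left_comm]
      gcongr
  · intro h B hB hA
    have := h6 (h ∘ T) (B * ‖c‖) (by positivity) ?_
    · simp only [Function.comp, hTp, hTq] at this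
      rw [hcn]
      calc _ ≤ _ := this
        _ = _ := by ring
    · intro P hP
      obtain ⟨a1, a2⟩ := hA _ ⟨P, hP, rfl⟩
      refine ⟨fun u hu v hv => ?_, ?_⟩
      · have := a1 _ (mem_image_of_mem _ hu) _ (mem_image_of_mem _ hv)
        rw [hsub, norm_mul] at this
        simpa only [Function.comp, mul_assoc] using this
      · refine a2.comp (by simp only [T]; fun_prop) ?_
        intro z hz
        exact hTo.image_interior_subset P (mem_image_of_mem _ hz)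

/-- Potentials can be rescaled to have any prescribed smaller increment. -/
theorem lip_scale {𝒜 : Set (Set ℂ)} {F : ℂ → ℝ} (hF : Lip1 𝒜 F) {p q : ℂ}
    {a b : ℝ} (h0 : a ≤ b) (h1 : b - a ≤ F q - F p) :
    ∃ G : ℂ → ℝ, Lip1 𝒜 G ∧ G p = a ∧ G q = b := by
  refine ⟨fun z => max a (min b (F z - F p + a)), ?_, ?_, ?_⟩
  · intro P hP u hu v hv
    refine le_trans ?_ (hF P hP u hu v hv)
    refine (abs_max_sub_max_le_max _ _ _ _).trans (max_le (by simp) ?_)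
    refine (abs_min_sub_min_le_max _ _ _ _).trans (max_le (by simp) ?_)
    apply le_of_eq; congr 1; ring
  · simp [h0]
  · have : b ≤ F q - F p + a := by linarith
    simp [this, h0]

theorem obox_thick {p q : ℂ} (hpq : p ≠ q) {δ : ℝ} (hδ : 0 < δ) {z : ℂ}
    (hz : z = p ∨ z = q ∨ z ∈ OBox p q (δ / ‖q - p‖)) :
    z ∈ Metric.thickening δ (segment ℝ p q) := by
  have hqp : q - p ≠ 0 := sub_ne_zero.2 hpq.symm
  rcases hz with rfl | rfl | ⟨h0, h1, h2⟩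
  · exact Metric.self_subset_thickening hδ _ (left_mem_segment ℝ _ _)
  · exact Metric.self_subset_thickening hδ _ (right_mem_segment ℝ _ _)
  · rw [Metric.mem_thickening_iff]
    set w := (z - p) / (q - p) with hw
    refine ⟨p + w.re * (q - p), seg_mem.2 ⟨w.re, h0.le, h1.le, rfl⟩, ?_⟩
    have hz : z = p + w * (q - p) := by rw [hw]; field_simp; ring
    have e : z - (p + w.re * (q - p)) = (w.im * Complex.I) * (q - p) := by
      conv_lhs => rw [hz]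
      have := Complex.re_add_im w
      linear_combination (-(q - p)) * this
    rw [dist_eq_norm, e, norm_mul, norm_mul, Complex.norm_I, mul_one, Complex.norm_real,
      Real.norm_eq_abs]
    have : 0 < ‖q - p‖ := norm_pos_iff.2 hqp
    rwa [lt_div_iff₀ this] at h2

theorem ev_subset {K V : Set ℂ} (hK : IsCompact K) (hV : IsOpen V) (h : K ⊆ V) :
    ∀ᶠ δ in 𝓝[>] (0 : ℝ), Metric.thickening δ K ⊆ V := by
  obtain ⟨δ, hδ, h'⟩ := hK.exists_thickening_subset_open hV h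
  filter_upwards [Ioo_mem_nhdsGT hδ] with ε hε
  exact (Metric.thickening_mono hε.2.le _).trans h'

theorem ev_disj {K L : Set ℂ} (hK : IsCompact K) (hL : IsCompact L) (h : Disjoint K L) :
    ∀ᶠ δ in 𝓝[>] (0 : ℝ), Disjoint (Metric.thickening δ K) (Metric.thickening δ L) := by
  obtain ⟨δ, hδ, h'⟩ := h.exists_thickenings hK hL.isClosed
  filter_upwards [Ioo_mem_nhdsGT hδ] with ε hε
  exact h'.mono (Metric.thickening_mono hε.2.le _) (Metric.thickening_mono hε.2.le _)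

/-- Substitution of material into finitely many disjoint segments of a skeleton. -/
theorem subst {H S : ℝ} (hM : Mat H S) {𝒮 : Set (Set ℂ)} (hS : 𝒮.Finite) (hg : ∀ P ∈ 𝒮, Good P)
    {ι : Type} [Finite ι] (p q : ι → ℂ) (hpq : ∀ i, p i ≠ q i)
    (hd : ∀ i j, i ≠ j → Disjoint (segment ℝ (p i) (q i)) (segment ℝ (p j) (q j)))
    {U : Set ℂ} (hU : IsOpen U) (hsub : ∀ i, segment ℝ (p i) (q i) ⊆ U)
    (hsk : ∀ P ∈ 𝒮, ∀ i, Disjoint (segment ℝ (p i) (q i)) P ∨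
      ∀ z ∈ P, ∃ t : ℝ, (t ≤ 0 ∨ 1 ≤ t) ∧ z = p i + t * (q i - p i))
    {F : ℂ → ℝ} (hF : Lip1 𝒮 F) (h0 : ∀ i, F (p i) ≤ F (q i))
    (h1 : ∀ i, F (q i) - F (p i) ≤ S * ‖q i - p i‖) :
    ∃ 𝒜 : Set (Set ℂ), 𝒜.Finite ∧ 𝒮 ⊆ 𝒜 ∧ (∀ P ∈ 𝒜, Good P) ∧ (∀ P ∈ 𝒜, P ∈ 𝒮 ∨ P ⊆ U) ∧
      (∃ G : ℂ → ℝ, Lip1 𝒜 G ∧ ∀ P ∈ 𝒮, ∀ z ∈ P, G z = F z) ∧
      ∀ (h : ℂ → ℂ) (B : ℝ), 0 ≤ B → Adm 𝒜 h B → ∀ i, ‖h (q i) - h (p i)‖ ≤ H * B * ‖q i - p i‖ := by
  classical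
  have e1 : ∀ᶠ δ in 𝓝[>] (0 : ℝ), ∀ i, Metric.thickening δ (segment ℝ (p i) (q i)) ⊆ U :=
    eventually_all.2 fun i => ev_subset (compact_seg _ _) hU (hsub i)
  have e2 : ∀ᶠ δ in 𝓝[>] (0 : ℝ), ∀ i j, i ≠ j →
      Disjoint (Metric.thickening δ (segment ℝ (p i) (q i)))
        (Metric.thickening δ (segment ℝ (p j) (q j))) := by
    refine eventually_all.2 fun i => eventually_all.2 fun j => ?_
    by_cases hij : i = j
    · simp [hij]
    · filter_upwards [ev_disj (compact_seg _ _) (compact_seg _ _) (hd i j hij)] with δ h _ using h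
  have e3 : ∀ᶠ δ in 𝓝[>] (0 : ℝ), ∀ P ∈ 𝒮, ∀ i, Disjoint (segment ℝ (p i) (q i)) P →
      Metric.thickening δ (segment ℝ (p i) (q i)) ⊆ Pᶜ := by
    refine (eventually_all_finite hS).2 fun P hP => eventually_all.2 fun i => ?_
    by_cases h : Disjoint (segment ℝ (p i) (q i)) P
    · filter_upwards [ev_subset (compact_seg _ _) (hg P hP).1.isClosed.isOpen_compl
        h.subset_compl_right] with δ h _ using h
    · simp [h]
  obtain ⟨δ, ⟨⟨d1, d2⟩, d3⟩, hδ⟩ := (((e1.and e2).and e3).and self_mem_nhdsWithin).exists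
  have hδ : 0 < δ := hδ
  have hG : ∀ i, Gad (p i) (q i) (δ / ‖q i - p i‖) H S := fun i =>
    hM _ _ (hpq i) _ (div_pos hδ (norm_pos_iff.2 (sub_ne_zero.2 (hpq i).symm)))
  choose 𝒢 g1 g2 _ _ g5 g6 g7 using hG
  choose F' hF' hF'' using g6
  have hG' : ∀ i, ∃ G : ℂ → ℝ, Lip1 (𝒢 i) G ∧ G (p i) = F (p i) ∧ G (q i) = F (q i) := fun i =>
    lip_scale (hF' i) (h0 i) ((h1 i).trans (hF'' i))
  choose G hG1 hG2 hG3 using hG'
  have hth : ∀ i, ∀ P ∈ 𝒢 i, P ⊆ Metric.thickening δ (segment ℝ (p i) (q i)) :=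
    fun i P hP z hz => obox_thick (hpq i) hδ (g5 i P hP z hz)
  have huniq : ∀ i j z, z ∈ ⋃₀ 𝒢 i → z ∈ ⋃₀ 𝒢 j → i = j := by
    rintro i j z ⟨P, hP, hz⟩ ⟨Q, hQ, hz'⟩
    by_contra hij
    exact disjoint_left.1 (d2 i j hij) (hth i P hP hz) (hth j Q hQ hz')
  let Φ : ℂ → ℝ := fun z => if h : ∃ i, z ∈ ⋃₀ 𝒢 i then G h.choose z else F z
  have hΦ1 : ∀ i z, z ∈ ⋃₀ 𝒢 i → Φ z = G i z := by
    intro i z hz
    have h : ∃ i, z ∈ ⋃₀ 𝒢 i := ⟨i, hz⟩
    simp only [Φ, dif_pos h]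
    rw [huniq _ _ z h.choose_spec hz]
  have hΦ2 : ∀ P ∈ 𝒮, ∀ z ∈ P, Φ z = F z := by
    intro P hP z hz
    by_cases h : ∃ i, z ∈ ⋃₀ 𝒢 i
    · obtain ⟨i, Q, hQ, hzQ⟩ := h
      rw [hΦ1 i z ⟨Q, hQ, hzQ⟩]
      rcases g5 i Q hQ z hzQ with rfl | rfl | hb
      · exact hG2 i
      · exact hG3 i
      · exfalso
        rcases hsk P hP i with hdis | hcol
        · exact d3 P hP i hdis (hth i Q hQ hzQ) hz
        · obtain ⟨t, ht, rfl⟩ := hcol z hz
          have hqp : q i - p i ≠ 0 := sub_ne_zero.2 (hpq i).symm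
          have : (p i + t * (q i - p i) - p i) / (q i - p i) = t := by field_simp; ring
          simp only [OBox, mem_ofPred_eq, this, Complex.ofReal_re] at hb
          rcases ht with ht | ht <;> linarith [hb.1, hb.2.1]
    · simp only [Φ, dif_neg h]
  refine ⟨𝒮 ∪ ⋃ i, 𝒢 i, hS.union (finite_iUnion g1), subset_union_left, ?_, ?_, ⟨Φ, ?_, hΦ2⟩, ?_⟩
  · rintro P (hP | hP)
    · exact hg P hP
    · obtain ⟨i, hi⟩ := mem_iUnion.1 hP
      exact g2 i P hi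
  · rintro P (hP | hP)
    · exact Or.inl hP
    · obtain ⟨i, hi⟩ := mem_iUnion.1 hP
      exact Or.inr ((hth i P hi).trans (d1 i))
  · rintro P (hP | hP) u hu v hv
    · rw [hΦ2 P hP u hu, hΦ2 P hP v hv]
      exact hF P hP u hu v hv
    · obtain ⟨i, hi⟩ := mem_iUnion.1 hP
      rw [hΦ1 i u ⟨P, hi, hu⟩, hΦ1 i v ⟨P, hi, hv⟩]
      exact hG1 i P hi u hu v hv
  · intro h B hB hA i
    exact g7 i h B hB fun P hP => hA P (Or.inr (mem_iUnion.2 ⟨i, hP⟩))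

theorem var_add (γ : ℝ → ℂ) {a b c : ℝ} (hab : a ≤ b) (hbc : b ≤ c) :
    eVariationOn γ (Icc a b) + eVariationOn γ (Icc b c) = eVariationOn γ (Icc a c) := by
  simpa using eVariationOn.Icc_add_Icc γ (s := univ) hab hbc (mem_univ _)

/-- A potential that is 1-Lipschitz on each of finitely many closed pieces bounds the length of
paths from below. -/
theorem path_lemma {F : ℂ → ℝ} {γ : ℝ → ℂ} {b : ℝ} (n : ℕ) :
    ∀ (𝒜 : Set (Set ℂ)), 𝒜.Finite → 𝒜.ncard ≤ n → (∀ P ∈ 𝒜, IsClosed P) → Lip1 𝒜 F →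
      ∀ a, a ≤ b → ContinuousOn γ (Icc a b) → MapsTo γ (Icc a b) (⋃₀ 𝒜) →
        ENNReal.ofReal |F (γ b) - F (γ a)| ≤ eVariationOn γ (Icc a b) := by
  induction n with
  | zero =>
    intro 𝒜 hf hn _ _ a hab _ hm
    have : 𝒜 = ∅ := (ncard_eq_zero hf).1 (Nat.le_zero.1 hn)
    subst this
    simpa using hm (left_mem_Icc.2 hab)
  | succ n ih =>
    intro 𝒜 hf hn hc hF a hab hγ hm
    obtain ⟨P, hP, haP⟩ := hm (left_mem_Icc.2 hab)
    have hcl : IsCompact (Icc a b ∩ γ ⁻¹' P) :=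
      isCompact_Icc.of_isClosed_subset (hγ.preimage_isClosed_of_isClosed isClosed_Icc (hc P hP))
        inter_subset_left
    obtain ⟨t, ⟨ht, htP⟩, hmax⟩ := hcl.exists_isGreatest ⟨a, left_mem_Icc.2 hab, haP⟩
    have e1 : ENNReal.ofReal |F (γ t) - F (γ a)| ≤ eVariationOn γ (Icc a t) := by
      refine le_trans ?_ (eVariationOn.edist_le γ (right_mem_Icc.2 ht.1) (left_mem_Icc.2 ht.1))
      rw [edist_dist, dist_eq_norm]
      exact ENNReal.ofReal_le_ofReal (hF P hP _ htP _ haP)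
    rcases ht.2.eq_or_lt with rfl | htb
    · exact e1
    have hcl' : IsClosed (⋃₀ (𝒜 \ {P})) := by
      rw [sUnion_eq_biUnion]
      exact (hf.subset sdiff_subset).isClosed_biUnion fun Q hQ => hc Q hQ.1
    have hγ' : ContinuousOn γ (Icc t b) := hγ.mono (Icc_subset_Icc_left ht.1)
    have hm1 : MapsTo γ (Ioc t b) (⋃₀ (𝒜 \ {P})) := by
      intro s hs
      obtain ⟨Q, hQ, hsQ⟩ := hm ⟨ht.1.trans hs.1.le, hs.2⟩
      refine ⟨Q, ⟨hQ, ?_⟩, hsQ⟩
      rintro rfl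
      exact absurd (hmax ⟨⟨ht.1.trans hs.1.le, hs.2⟩, hsQ⟩) (not_le.2 hs.1)
    have hm2 : MapsTo γ (Icc t b) (⋃₀ (𝒜 \ {P})) := by
      have := hm1.closure_of_continuousOn (by rwa [closure_Ioc htb.ne])
      rwa [closure_Ioc htb.ne, hcl'.closure_eq] at this
    have hcard : (𝒜 \ {P}).ncard ≤ n := by
      rw [ncard_sdiff_singleton_of_mem hP]; omega
    have e2 := ih (𝒜 \ {P}) (hf.subset sdiff_subset) hcard (fun Q hQ => hc Q hQ.1)
      (fun Q hQ => hF Q hQ.1) t ht.2 hγ' hm2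
    rw [← var_add γ ht.1 ht.2]
    refine le_trans ?_ (add_le_add e1 e2)
    rw [← ENNReal.ofReal_add (abs_nonneg _) (abs_nonneg _)]
    apply ENNReal.ofReal_le_ofReal
    have := abs_add_le (F (γ t) - F (γ a)) (F (γ b) - F (γ t))
    rwa [show F (γ t) - F (γ a) + (F (γ b) - F (γ t)) = F (γ b) - F (γ a) by ring] at this

end Pool.Agent.P.MP_192c68_an
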