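import Pool.Agent.P.MP_192c68_an.Arm

/-! Geometry of the zigzag skeleton. -/

namespace Pool.Agent.P.MP_192c68_an

open Set Filter Topology

noncomputable def tri (Y : ℝ) : ℝ := 4 * |Y / 4 - round (Y / 4)| - 1

theorem abs_round_eq (k : ℤ) {x : ℝ} (hx : |x| ≤ 1 / 2) : |k + x - round ((k : ℝ) + x)| = |x| := by
  apply le_antisymm
  · simpa using round_le ((k : ℝ) + x) k
  · by_cases h : round ((k : ℝ) + x) = k
    · simp [h]
    · have h1 : (1 : ℝ) ≤ |(k : ℝ) - round ((k : ℝ) + x)| := by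
        have : (1 : ℤ) ≤ |k - round ((k : ℝ) + x)| := Int.one_le_abs (sub_ne_zero.2 (Ne.symm h))
        exact_mod_cast this
      have h2 := abs_add_le ((k : ℝ) + x - round ((k : ℝ) + x)) (-x)
      rw [abs_neg, show (k : ℝ) + x - round ((k : ℝ) + x) + -x = k - round ((k : ℝ) + x) by ring] at h2
      linarith

theorem tri_lip (Y Z : ℝ) : |tri Y - tri Z| ≤ |Y - Z| := by
  have key : ∀ Y Z : ℝ, tri Y - tri Z ≤ |Y - Z| := by
    intro Y Z
    have h1 := round_le (Y / 4) (round (Z / 4))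
    have h2 := abs_add_le (Y / 4 - Z / 4) (Z / 4 - round (Z / 4))
    rw [show Y / 4 - Z / 4 + (Z / 4 - round (Z / 4)) = Y / 4 - round (Z / 4) by ring,
      show Y / 4 - Z / 4 = (Y - Z) / 4 by ring, abs_div, abs_of_pos (by norm_num : (0 : ℝ) < 4)] at h2
    simp only [tri]
    linarith
  rw [abs_le]
  have := key Z Y
  rw [abs_sub_comm] at this
  exact ⟨by linarith, key Y Z⟩

theorem tri_bd (Y : ℝ) : -1 ≤ tri Y ∧ tri Y ≤ 1 := by
  have h1 := abs_sub_round (Y / 4)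
  have h2 := abs_nonneg (Y / 4 - round (Y / 4))
  simp only [tri]
  constructor <;> linarith

theorem tri_zero : tri 0 = -1 := by simp [tri]

def sg (r : ℕ) : ℝ := (-1) ^ r

theorem sg_cases (r : ℕ) : sg r = 1 ∧ sg (r + 1) = -1 ∨ sg r = -1 ∧ sg (r + 1) = 1 := by
  rcases Nat.even_or_odd r with h | h
  · left; simp [sg, pow_succ, h.neg_one_pow]
  · right; simp [sg, pow_succ, h.neg_one_pow]

theorem tri_row (r : ℕ) {u : ℝ} (h0 : 0 ≤ u) (h2 : u ≤ 2) :
    tri (2 * r + 1 - sg r + sg r * u) = u - 1 := by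
  rcases Nat.even_or_odd' r with ⟨m, rfl | rfl⟩
  · have hs : sg (2 * m) = 1 := by simp [sg]
    have e : (2 * ((2 * m : ℕ) : ℝ) + 1 - sg (2 * m) + sg (2 * m) * u) / 4 = ((m : ℤ) : ℝ) + u / 4 := by
      rw [hs]; push_cast; ring
    simp only [tri]
    rw [e, abs_round_eq _ (by rw [abs_le]; constructor <;> linarith), abs_of_nonneg (by linarith)]
    ring
  · have hs : sg (2 * m + 1) = -1 := by simp [sg, pow_succ]
    have e : (2 * ((2 * m + 1 : ℕ) : ℝ) + 1 - sg (2 * m + 1) + sg (2 * m + 1) * u) / 4 =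
        ((m + 1 : ℤ) : ℝ) + -(u / 4) := by
      rw [hs]; push_cast; ring
    simp only [tri]
    rw [e, abs_round_eq _ (by rw [abs_le]; constructor <;> linarith), abs_neg,
      abs_of_nonneg (by linarith)]
    ring

noncomputable def nu (α : ℝ) (z : ℂ) : ℝ := z.re - tri (z.im / α)

theorem nu_lip {α : ℝ} (h0 : 0 < α) (h1 : α ≤ 1) (u v : ℂ) :
    |α / 2 * nu α u - α / 2 * nu α v| ≤ ‖u - v‖ := by
  have a1 := tri_lip (u.im / α) (v.im / α)
  have a2 := Complex.abs_re_le_norm (u - v)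
  have a3 := Complex.abs_im_le_norm (u - v)
  rw [← sub_div, abs_div, abs_of_pos h0, le_div_iff₀ h0, ← Complex.sub_im] at a1
  have a4 := abs_sub (u - v).re (tri (u.im / α) - tri (v.im / α))
  rw [← mul_sub, abs_mul, abs_of_pos (by linarith : 0 < α / 2),
    show nu α u - nu α v = (u - v).re - (tri (u.im / α) - tri (v.im / α)) by
      simp only [nu, Complex.sub_re]; ring]
  have a5 : α * |(u - v).re| ≤ ‖u - v‖ := by nlinarith [abs_nonneg (u - v).re]
  nlinarith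

noncomputable def vv (α : ℝ) (r : ℕ) : ℂ := ((α * sg r : ℝ) : ℂ) * Complex.I

noncomputable def zz (α : ℝ) (j r : ℕ) : ℂ :=
  ((2 * j : ℝ) : ℂ) + ((α * (2 * r + 1 - sg r) : ℝ) : ℂ) * Complex.I

noncomputable def pt (α : ℝ) (j r : ℕ) (s t : ℝ) : ℂ := zz α j r + s * (1 + vv α r) + t * vv α r

noncomputable def wp (α : ℝ) (j r : ℕ) (s t : ℝ) : ℂ :=
  zz α j r + s * (1 + vv α r) + t * (2 + vv α r)

noncomputable def arm (α : ℝ) (j r : ℕ) : Set ℂ := Par (zz α j r) (1 + vv α r) (vv α r)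

noncomputable def VV (α : ℝ) (j k : ℕ) : ℂ :=
  ((2 * j + (1 - sg k) / 2 : ℝ) : ℂ) + ((2 * k * α : ℝ) : ℂ) * Complex.I

theorem pt_re (α : ℝ) (j r : ℕ) (s t : ℝ) : (pt α j r s t).re = 2 * j + s := by
  simp [pt, zz, vv]

theorem pt_im (α : ℝ) (j r : ℕ) (s t : ℝ) :
    (pt α j r s t).im = α * (2 * r + 1 - sg r + sg r * (s + t)) := by
  simp [pt, zz, vv]; ring

theorem wp_re (α : ℝ) (j r : ℕ) (s t : ℝ) : (wp α j r s t).re = 2 * j + s + 2 * t := by
  simp [wp, zz, vv]; ring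

theorem wp_im (α : ℝ) (j r : ℕ) (s t : ℝ) :
    (wp α j r s t).im = α * (2 * r + 1 - sg r + sg r * (s + t)) := by
  simp [wp, zz, vv]; ring

theorem wp_zero (α : ℝ) (j r : ℕ) (s : ℝ) : wp α j r s 0 = pt α j r s 0 := by simp [wp, pt]

theorem wp_one (α : ℝ) (j r : ℕ) (s : ℝ) : wp α j r s 1 = pt α (j + 1) r s 1 := by
  simp only [wp, pt, zz]; push_cast; ring

theorem wp_sub (α : ℝ) (j r : ℕ) (s t t' : ℝ) :
    wp α j r s t - wp α j r s t' = ((t - t' : ℝ) : ℂ) * (2 + vv α r) := by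
  simp only [wp]; push_cast; ring

theorem norm_vv {α : ℝ} (h0 : 0 < α) (r : ℕ) : ‖vv α r‖ = α := by
  rcases sg_cases r with h | h <;> simp [vv, h.1, abs_of_pos h0]

theorem vv_im {α : ℝ} (h0 : 0 < α) (r : ℕ) : (vv α r).im ≠ 0 := by
  rcases sg_cases r with h | h <;> simp [vv, h.1, h0.ne']

theorem norm_w_le (α : ℝ) (r : ℕ) : ‖2 + vv α r‖ ≤ 2 + α ^ 2 / 4 := by
  apply abs_le_of_sq_le_sq' _ (by positivity) |>.2
  rw [Complex.sq_norm, Complex.normSq_apply]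
  rcases sg_cases r with h | h <;> simp [vv, h.1] <;> nlinarith [sq_nonneg (α ^ 2)]

theorem norm_w_ge (α : ℝ) (r : ℕ) : 2 ≤ ‖2 + vv α r‖ := by
  have := Complex.re_le_norm (2 + vv α r)
  simpa [vv] using this

theorem mem_arm {α : ℝ} {j r : ℕ} {z : ℂ} :
    z ∈ arm α j r ↔ ∃ s t : ℝ, 0 ≤ s ∧ s ≤ 1 ∧ 0 ≤ t ∧ t ≤ 1 ∧ z = pt α j r s t := by
  constructor
  · rintro ⟨x, ⟨⟨a, b⟩, c, d⟩, rfl⟩
    exact ⟨x.1, x.2, a, b, c, d, rfl⟩
  · rintro ⟨s, t, a, b, c, d, rfl⟩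
    exact mem_par ⟨a, b⟩ ⟨c, d⟩

theorem mem_wseg {α : ℝ} {j r : ℕ} {s a b : ℝ} (hab : a ≤ b) {z : ℂ} :
    z ∈ segment ℝ (wp α j r s a) (wp α j r s b) ↔ ∃ t, a ≤ t ∧ t ≤ b ∧ z = wp α j r s t := by
  rw [seg_mem]
  constructor
  · rintro ⟨t, h0, h1, rfl⟩
    refine ⟨a + t * (b - a), by nlinarith, by nlinarith, ?_⟩
    simp only [wp]; push_cast; ring
  · rintro ⟨t, h0, h1, rfl⟩
    rcases hab.eq_or_lt with rfl | h
    · exact ⟨0, le_rfl, zero_le_one, by simp [le_antisymm h1 h0]⟩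
    · have hba : 0 < b - a := sub_pos.2 h
      refine ⟨(t - a) / (b - a), div_nonneg (by linarith) hba.le, by
        rw [div_le_one hba]; linarith, ?_⟩
      have : ((b : ℂ) - a) ≠ 0 := by exact_mod_cast hba.ne'
      simp only [wp]; push_cast; field_simp; ring

theorem nu_pt {α : ℝ} (h0 : 0 < α) (j r : ℕ) {s t : ℝ} (hs : 0 ≤ s + t) (ht : s + t ≤ 2) :
    nu α (pt α j r s t) = 2 * j + 1 - t := by
  rw [nu, pt_re, pt_im, mul_div_cancel_left₀ _ h0.ne', tri_row r hs ht]; ring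

theorem nu_wp {α : ℝ} (h0 : 0 < α) (j r : ℕ) {s t : ℝ} (hs : 0 ≤ s + t) (ht : s + t ≤ 2) :
    nu α (wp α j r s t) = 2 * j + 1 + t := by
  rw [nu, wp_re, wp_im, mul_div_cancel_left₀ _ h0.ne', tri_row r hs ht]; ring

theorem row_bd (r : ℕ) {u : ℝ} (h0 : 0 ≤ u) (h2 : u ≤ 2) :
    2 * r ≤ 2 * r + 1 - sg r + sg r * u ∧ 2 * r + 1 - sg r + sg r * u ≤ 2 * r + 2 := by
  rcases sg_cases r with h | h <;> rw [h.1] <;> constructor <;> linarith

theorem row_bd' (r : ℕ) {u : ℝ} (h0 : 0 < u) (h2 : u < 2) :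
    2 * r < 2 * r + 1 - sg r + sg r * u ∧ 2 * r + 1 - sg r + sg r * u < 2 * r + 2 := by
  rcases sg_cases r with h | h <;> rw [h.1] <;> constructor <;> linarith

theorem wp_inj {α : ℝ} (h0 : 0 < α) {j r j' r' : ℕ} {s t s' t' : ℝ} (hs : 0 < s) (hs1 : s < 1)
    (hs' : 0 < s') (hs1' : s' < 1) (ht : 0 ≤ t) (ht1 : t ≤ 1) (ht' : 0 ≤ t') (ht1' : t' ≤ 1)
    (h : wp α j r s t = wp α j' r' s' t') : j = j' ∧ r = r' ∧ s = s' := by
  have hre := congrArg Complex.re h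
  have him := congrArg Complex.im h
  rw [wp_re, wp_re] at hre
  rw [wp_im, wp_im] at him
  have him := mul_left_cancel₀ h0.ne' him
  have b1 := row_bd' r (u := s + t) (by linarith) (by linarith)
  have b2 := row_bd' r' (u := s' + t') (by linarith) (by linarith)
  have hr : r = r' := by
    have c1 : (r : ℝ) < r' + 1 := by linarith [b1.1, b2.2]
    have c2 : (r' : ℝ) < r + 1 := by linarith [b1.2, b2.1]
    have c1 : r < r' + 1 := by exact_mod_cast c1
    have c2 : r' < r + 1 := by exact_mod_cast c2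
    omega
  subst hr
  have hu : s + t = s' + t' := by
    rcases sg_cases r with h | h <;> rw [h.1] at him <;> linarith
  have hj : j = j' := by
    have c1 : (j : ℝ) < j' + 1 := by linarith
    have c2 : (j' : ℝ) < j + 1 := by linarith
    have c1 : j < j' + 1 := by exact_mod_cast c1
    have c2 : j' < j + 1 := by exact_mod_cast c2
    omega
  subst hj
  exact ⟨rfl, rfl, by linarith⟩

theorem VV_mem (α : ℝ) (j r : ℕ) : VV α j r ∈ arm α j r ∧ VV α j (r + 1) ∈ arm α j r := by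
  rcases sg_cases r with h | h
  · refine ⟨mem_arm.2 ⟨0, 0, le_rfl, zero_le_one, le_rfl, zero_le_one, ?_⟩,
      mem_arm.2 ⟨1, 1, zero_le_one, le_rfl, zero_le_one, le_rfl, ?_⟩⟩ <;>
    simp only [VV, pt, zz, vv, h.1, h.2] <;> push_cast <;> ring
  · refine ⟨mem_arm.2 ⟨1, 1, zero_le_one, le_rfl, zero_le_one, le_rfl, ?_⟩,
      mem_arm.2 ⟨0, 0, le_rfl, zero_le_one, le_rfl, zero_le_one, ?_⟩⟩ <;>
    simp only [VV, pt, zz, vv, h.1, h.2] <;> push_cast <;> ring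

theorem VV_tel (α : ℝ) (j r : ℕ) (h : ℂ → ℂ) :
    vv α r * (h (zz α j r) - h (zz α j r + (1 + vv α r) + vv α r)) =
      α * Complex.I * (h (VV α j r) - h (VV α j (r + 1))) := by
  rcases sg_cases r with hs | hs
  · have e1 : zz α j r = VV α j r := by simp only [VV, zz, hs.1]; push_cast; ring
    have e2 : zz α j r + (1 + vv α r) + vv α r = VV α j (r + 1) := by
      simp only [VV, zz, vv, hs.1, hs.2]; push_cast; ring
    rw [e2, e1]; simp [vv, hs.1]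
  · have e1 : zz α j r = VV α j (r + 1) := by simp only [VV, zz, hs.1, hs.2]; push_cast; ring
    have e2 : zz α j r + (1 + vv α r) + vv α r = VV α j r := by
      simp only [VV, zz, vv, hs.1]; push_cast; ring
    rw [e2, e1]; simp only [vv, hs.1]; push_cast; ring

theorem VV_zero (α : ℝ) (j : ℕ) : VV α j 0 = ((2 * j : ℝ) : ℂ) := by simp [VV, sg]

theorem norm_e_le {α : ℝ} (h0 : 0 < α) (h1 : α ≤ 1) (r : ℕ) : ‖1 + vv α r‖ ≤ 2 := by
  have := norm_add_le 1 (vv α r)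
  rw [norm_vv h0, norm_one] at this
  linarith

theorem arm_diam {α : ℝ} (h0 : 0 < α) (h1 : α ≤ 1) {j r : ℕ} {u w : ℂ} (hu : u ∈ arm α j r)
    (hw : w ∈ arm α j r) : ‖u - w‖ ≤ 3 := by
  obtain ⟨s, t, a1, a2, a3, a4, rfl⟩ := mem_arm.1 hu
  obtain ⟨s', t', b1, b2, b3, b4, rfl⟩ := mem_arm.1 hw
  have e : pt α j r s t - pt α j r s' t' =
      ((s - s' : ℝ) : ℂ) * (1 + vv α r) + ((t - t' : ℝ) : ℂ) * vv α r := by
    simp only [pt]; push_cast; ring
  rw [e]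
  refine (norm_add_le _ _).trans ?_
  rw [norm_mul, norm_mul, Complex.norm_real, Complex.norm_real, norm_vv h0, Real.norm_eq_abs,
    Real.norm_eq_abs]
  have c1 : |s - s'| ≤ 1 := abs_le.2 ⟨by linarith, by linarith⟩
  have c2 : |t - t'| ≤ 1 := abs_le.2 ⟨by linarith, by linarith⟩
  have := norm_e_le h0 h1 r
  nlinarith [abs_nonneg (s - s'), abs_nonneg (t - t'), norm_nonneg (1 + vv α r)]

noncomputable def ss (n i : ℕ) : ℝ := (i + 1 / 2) / n

theorem ss_mem {n i : ℕ} (h : i < n) : 0 < ss n i ∧ ss n i < 1 := by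
  have h1 : (i : ℝ) + 1 ≤ n := by exact_mod_cast h
  have h2 : (0 : ℝ) ≤ i := Nat.cast_nonneg i
  refine ⟨div_pos (by linarith) (by linarith), ?_⟩
  rw [ss, div_lt_one (by linarith)]; linarith

theorem ss_inj {n i i' : ℕ} (hn : 0 < n) (h : ss n i = ss n i') : i = i' := by
  have h1 : (n : ℝ) ≠ 0 := by positivity
  rw [ss, ss, div_left_inj' h1, add_left_inj] at h
  exact_mod_cast h

theorem ss_near {n : ℕ} (hn : 0 < n) {s : ℝ} (h0 : 0 ≤ s) (h1 : s ≤ 1) :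
    ∃ i < n, |s - ss n i| ≤ 1 / n := by
  have hn' : (0 : ℝ) < n := by positivity
  have key : ∀ i : ℕ, |s * n - (i + 1 / 2)| ≤ 1 → |s - ss n i| ≤ 1 / n := by
    intro i hi
    rw [show s - ss n i = (s * n - (i + 1 / 2)) / n by rw [ss]; field_simp, abs_div, abs_of_pos hn']
    gcongr
  rcases h1.eq_or_lt with rfl | h1
  · refine ⟨n - 1, by omega, key _ ?_⟩
    rw [Nat.cast_sub hn, abs_le]; push_cast; constructor <;> linarith
  · have a1 := Nat.floor_le (mul_nonneg h0 hn'.le)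
    have a2 := Nat.lt_floor_add_one (s * n)
    refine ⟨⌊s * n⌋₊, ?_, key _ (by rw [abs_le]; constructor <;> linarith)⟩
    rw [Nat.floor_lt (mul_nonneg h0 hn'.le)]
    nlinarith

theorem mem_OBox_real {a b ρ : ℝ} (hab : a < b) {z : ℂ} :
    z ∈ OBox a b ρ ↔ a < z.re ∧ z.re < b ∧ |z.im| < ρ * (b - a) := by
  have h : 0 < b - a := sub_pos.2 hab
  have e : ((b : ℂ) - a) = ((b - a : ℝ) : ℂ) := by push_cast; ring
  simp only [OBox, mem_ofPred_eq, e, Complex.div_ofReal_re, Complex.div_ofReal_im, Complex.sub_re,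
    Complex.sub_im, Complex.ofReal_re, Complex.ofReal_im, sub_zero]
  rw [lt_div_iff₀ h, div_lt_one h, abs_div, abs_of_pos h, div_lt_iff₀ h]
  constructor <;> rintro ⟨h1, h2, h3⟩ <;> exact ⟨by linarith, by linarith, h3⟩

theorem mem_hseg {a b : ℝ} (hab : a ≤ b) {z : ℂ} (hz : z ∈ segment ℝ (a : ℂ) b) :
    a ≤ z.re ∧ z.re ≤ b ∧ z.im = 0 := by
  obtain ⟨t, h0, h1, rfl⟩ := seg_mem.1 hz
  simp
  constructor <;> nlinarith

theorem mem_vseg {a b : ℝ} (hb : 0 < b) {z : ℂ} :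
    z ∈ segment ℝ (a : ℂ) (a + b * Complex.I) ↔ z.re = a ∧ 0 ≤ z.im ∧ z.im ≤ b := by
  rw [seg_mem]
  constructor
  · rintro ⟨t, h0, h1, rfl⟩
    simp
    constructor <;> nlinarith
  · rintro ⟨h1, h2, h3⟩
    refine ⟨z.im / b, div_nonneg h2 hb.le, (div_le_one hb).2 h3, ?_⟩
    apply Complex.ext
    · simp [h1]
    · simp; field_simp

end Pool.Agent.P.MP_192c68_an
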