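import Pool.Agent.P.MP_192c68_an.Geo

/-! The holomorphic estimate along the zigzag skeleton. -/

namespace Pool.Agent.P.MP_192c68_an

open Set Filter Topology

def LipB (h : ℂ → ℂ) (B : ℝ) (P : Set ℂ) : Prop := ∀ u ∈ P, ∀ v ∈ P, ‖h u - h v‖ ≤ B * ‖u - v‖

noncomputable def bus (α : ℝ) (R j : ℕ) : Set ℂ :=
  segment ℝ ((2 * j + 3 / 2 : ℝ) : ℂ) (((2 * j + 3 / 2 : ℝ) : ℂ) + ((2 * R * α : ℝ) : ℂ) * Complex.I)

theorem tri3 (a b c d : ℂ) {x y z : ℝ} (h1 : ‖a - b‖ ≤ x) (h2 : ‖b - c‖ ≤ y) (h3 : ‖c - d‖ ≤ z) :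
    ‖a - d‖ ≤ x + y + z := by
  have e : a - d = (a - b) + (b - c) + (c - d) := by ring
  rw [e]
  exact (norm_add₃_le).trans (by gcongr)

theorem tri2 (a b c : ℂ) {x y : ℝ} (h1 : ‖a - b‖ ≤ x) (h2 : ‖b - c‖ ≤ y) : ‖a - c‖ ≤ x + y := by
  have e : a - c = (a - b) + (b - c) := by ring
  rw [e]
  exact (norm_add_le _ _).trans (by gcongr)

theorem hol_est {α H B : ℝ} (h0 : 0 < α) (h1 : α ≤ 1) (hH : 1 ≤ H) (hB : 0 ≤ B) {n J M R : ℕ}
    (hn : 0 < n) (hJ : 0 < J) (hM : 0 < M) (hR : 0 < R) {h : ℂ → ℂ}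
    (ha : ∀ j ≤ J * M, ∀ r < R, LipB h B (arm α j r) ∧ DifferentiableOn ℂ h (interior (arm α j r)))
    (hw : ∀ j < J * M, ∀ r < R, ∀ i < n,
      ‖h (wp α j r (ss n i) 1) - h (wp α j r (ss n i) 0)‖ ≤ H * B * ‖2 + vv α r‖)
    (hb : ∀ j < J * M, J ∣ j → LipB h B (bus α R j) ∧ ∀ r < R,
      LipB h B (segment ℝ (wp α j r (ss n 0) 0) (wp α j r (ss n 0) 1)))
    {p q : ℂ} (hp : ‖h 0 - h p‖ ≤ B) (hq : ‖h q - h ((2 * (J * M : ℕ) : ℝ) : ℂ)‖ ≤ 2 * B) :
    R * ‖h q - h p‖ ≤ R * ((6 * R + 3) * B + ((J * M : ℕ) + 1) * (3 * α ^ 2 * B) +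
      (J * M : ℕ) * ((H * (2 + α ^ 2 / 4) + 4 / n) * B)) +
      α * (((J * M : ℕ) + 1) * ((12 + 2 * R * α + J * (6 * H + 12)) * B)) := by
  set K := J * M with hK
  have hw3 : ∀ r, ‖2 + vv α r‖ ≤ 3 := fun r => (norm_w_le α r).trans (by nlinarith)
  have ha3 : ∀ j ≤ K, ∀ r < R, ∀ u ∈ arm α j r, ∀ w ∈ arm α j r, ‖h u - h w‖ ≤ 3 * B := by
    intro j hj r hr u hu w hw
    refine ((ha j hj r hr).1 u hu w hw).trans ?_
    rw [mul_comm]
    gcongr
    exact arm_diam h0 h1 hu hw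
  have mO : ∀ j r, ∀ s ∈ Icc (0 : ℝ) 1, zz α j r + s * (1 + vv α r) ∈ arm α j r := fun j r s hs =>
    mem_arm.2 ⟨s, 0, hs.1, hs.2, le_rfl, zero_le_one, by simp [pt]⟩
  have mI : ∀ j r, ∀ s ∈ Icc (0 : ℝ) 1, zz α j r + s * (1 + vv α r) + vv α r ∈ arm α j r :=
    fun j r s hs => mem_arm.2 ⟨s, 1, hs.1, hs.2, zero_le_one, le_rfl, by simp [pt]⟩
  have w0 : ∀ j r i, wp α j r (ss n i) 0 = zz α j r + ss n i * (1 + vv α r) := fun j r i => by
    simp [wp]
  have w1 : ∀ j r i, wp α j r (ss n i) 1 = zz α (j + 1) r + ss n i * (1 + vv α r) + vv α r :=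
    fun j r i => by rw [wp_one]; simp [pt]
  have hss : ∀ i < n, ss n i ∈ Icc (0 : ℝ) 1 := fun i hi => ⟨(ss_mem hi).1.le, (ss_mem hi).2.le⟩
  have cO : ∀ j ≤ K, ∀ r < R, ContinuousOn (fun s : ℝ => h (zz α j r + s * (1 + vv α r))) (Icc 0 1) :=
    fun j hj r hr => (contOn_of_lip hB (ha j hj r hr).1).comp (by fun_prop) (mO j r)
  have cI : ∀ j ≤ K, ∀ r < R,
      ContinuousOn (fun s : ℝ => h (zz α j r + s * (1 + vv α r) + vv α r)) (Icc 0 1) :=
    fun j hj r hr => (contOn_of_lip hB (ha j hj r hr).1).comp (by fun_prop) (mI j r)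
  obtain ⟨O, hO⟩ : ∃ O : ℕ → ℕ → ℂ, ∀ j r,
      O j r = ∫ s in (0 : ℝ)..1, h (zz α j r + s * (1 + vv α r)) := ⟨_, fun _ _ => rfl⟩
  obtain ⟨N, hN⟩ : ∃ N : ℕ → ℕ → ℂ, ∀ j r,
      N j r = ∫ s in (0 : ℝ)..1, h (zz α j r + s * (1 + vv α r) + vv α r) := ⟨_, fun _ _ => rfl⟩
  have E1 : ∀ j ≤ K, ∀ r < R,
      ‖O j r - N j r - α * Complex.I * (h (VV α j r) - h (VV α j (r + 1)))‖ ≤ 3 * α ^ 2 * B := by
    intro j hj r hr
    have := par_est (vv_im h0 r) hB (ha j hj r hr).1 (ha j hj r hr).2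
    rwa [VV_tel, norm_vv h0, ← hO, ← hN] at this
  have E2 : ∀ j < K, ∀ r < R, ‖N (j + 1) r - O j r‖ ≤ (H * (2 + α ^ 2 / 4) + 4 / n) * B := by
    intro j hj r hr
    rw [hO, hN]
    refine norm_int_sub_le (cI (j + 1) hj r hr) (cO j hj.le r hr) fun s hs => ?_
    obtain ⟨i, hi, his⟩ := ss_near hn hs.1 hs.2
    have b0 : ‖((s - ss n i : ℝ) : ℂ) * (1 + vv α r)‖ ≤ 2 / n := by
      rw [norm_mul, Complex.norm_real, Real.norm_eq_abs]
      calc _ ≤ 1 / (n : ℝ) * 2 := by gcongr; exact norm_e_le h0 h1 r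
        _ = _ := by ring
    have b1 := (ha (j + 1) hj r hr).1 _ (mI (j + 1) r s hs) _ (mI (j + 1) r _ (hss i hi))
    have b2 := hw j hj r hr i hi
    have b3 := (ha j hj.le r hr).1 _ (mO j r _ (hss i hi)) _ (mO j r s hs)
    rw [w0, w1] at b2
    have := tri3 _ _ _ _ b1 b2 b3
    rw [show zz α (j + 1) r + s * (1 + vv α r) + vv α r -
        (zz α (j + 1) r + ss n i * (1 + vv α r) + vv α r) = ((s - ss n i : ℝ) : ℂ) * (1 + vv α r) by
        push_cast; ring,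
      show zz α j r + ss n i * (1 + vv α r) - (zz α j r + s * (1 + vv α r)) =
        -(((s - ss n i : ℝ) : ℂ) * (1 + vv α r)) by push_cast; ring, norm_neg] at this
    refine this.trans ?_
    calc _ ≤ B * (2 / n) + H * B * (2 + α ^ 2 / 4) + B * (2 / n) := by
          gcongr; exact norm_w_le α r
      _ = _ := by ring
  have hrow : ∀ k ≤ R, ∃ r < R, ∀ j, VV α j k ∈ arm α j r := by
    intro k hk
    rcases hk.eq_or_lt with rfl | hk
    · obtain ⟨r, rfl⟩ : ∃ r, k = r + 1 := ⟨k - 1, by omega⟩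
      exact ⟨r, by omega, fun j => (VV_mem α j r).2⟩
    · exact ⟨k, hk, fun j => (VV_mem α j k).1⟩
  have E3 : ∀ k ≤ R, ∀ j < K, ‖h (VV α (j + 1) k) - h (VV α j k)‖ ≤ (3 * H + 6) * B := by
    intro k hk j hj
    obtain ⟨r, hr, hm⟩ := hrow k hk
    have b1 := ha3 (j + 1) hj r hr _ (hm _) _ (mI (j + 1) r _ (hss 0 hn))
    have b2 := hw j hj r hr 0 hn
    have b3 := ha3 j hj.le r hr _ (mO j r _ (hss 0 hn)) _ (hm _)
    rw [w0, w1] at b2
    refine (tri3 _ _ _ _ b1 b2 b3).trans ?_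
    have : H * B * ‖2 + vv α r‖ ≤ H * B * 3 := by gcongr; exact hw3 r
    linarith
  have hRα : 0 < 2 * R * α := by positivity
  have E4a : ∀ j < K, J ∣ j → ∀ k ≤ R, ∃ y ∈ bus α R j, ‖h (VV α j k) - h y‖ ≤ 6 * B := by
    intro j hj hd k hk
    obtain ⟨r, hr, hm⟩ := hrow k hk
    have s0 := ss_mem hn
    refine ⟨wp α j r (ss n 0) ((3 / 2 - ss n 0) / 2), ?_, ?_⟩
    · have := row_bd r (u := ss n 0 + (3 / 2 - ss n 0) / 2) (by linarith) (by linarith)
      have hr' : (r : ℝ) + 1 ≤ R := by exact_mod_cast hr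
      have hr0 : (0 : ℝ) ≤ r := Nat.cast_nonneg r
      rw [bus, mem_vseg hRα, wp_re, wp_im]
      refine ⟨by ring, mul_nonneg h0.le (by linarith), by nlinarith⟩
    · have b1 := ha3 j hj.le r hr _ (hm _) _ (mO j r _ (hss 0 hn))
      have b2 := (hb j hj hd).2 r hr _ (left_mem_segment ℝ _ _) _
        ((mem_wseg zero_le_one).2 ⟨(3 / 2 - ss n 0) / 2, by linarith, by linarith, rfl⟩)
      rw [wp_sub, w0, norm_mul, Complex.norm_real, Real.norm_eq_abs] at b2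
      refine (tri2 _ _ _ b1 b2).trans ?_
      have c1 : |0 - (3 / 2 - ss n 0) / 2| ≤ 1 := abs_le.2 ⟨by linarith, by linarith⟩
      have : B * (|0 - (3 / 2 - ss n 0) / 2| * ‖2 + vv α r‖) ≤ B * (1 * 3) := by
        gcongr; exact hw3 r
      linarith
  have E4 : ∀ j < K, J ∣ j → ‖h (VV α j 0) - h (VV α j R)‖ ≤ (12 + 2 * R * α) * B := by
    intro j hj hd
    obtain ⟨y, hy, b1⟩ := E4a j hj hd 0 (Nat.zero_le _)
    obtain ⟨y', hy', b3⟩ := E4a j hj hd R le_rfl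
    have b2 := (hb j hj hd).1 y hy y' hy'
    rw [norm_sub_rev] at b3
    refine (tri3 _ _ _ _ b1 b2 b3).trans ?_
    rw [bus, mem_vseg hRα] at hy hy'
    have : ‖y - y'‖ ≤ 2 * R * α := by
      refine (Complex.norm_le_abs_re_add_abs_im _).trans ?_
      rw [Complex.sub_re, Complex.sub_im, hy.1, hy'.1, sub_self, abs_zero, zero_add, abs_le]
      constructor <;> linarith [hy.2.1, hy.2.2, hy'.2.1, hy'.2.2]
    have : B * ‖y - y'‖ ≤ B * (2 * R * α) := by gcongr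
    linarith
  have E5 : ∀ b < K, J ∣ b → ∀ d, b + d ≤ K →
      ‖h (VV α (b + d) 0) - h (VV α (b + d) R)‖ ≤ (12 + 2 * R * α + d * (6 * H + 12)) * B := by
    intro b hb hd d
    induction d with
    | zero => intro _; simpa using E4 b hb hd
    | succ d ih =>
      intro hle
      have b1 := E3 0 (Nat.zero_le _) (b + d) (by omega)
      have b3 := E3 R le_rfl (b + d) (by omega)
      rw [norm_sub_rev] at b3
      refine (tri3 _ _ _ _ b1 (ih (by omega)) b3).trans (le_of_eq ?_)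
      push_cast; ring
  have E6 : ∀ j ≤ K, ‖h (VV α j 0) - h (VV α j R)‖ ≤ (12 + 2 * R * α + J * (6 * H + 12)) * B := by
    intro j hj
    obtain ⟨b, d, hb, hd, hdJ, rfl⟩ : ∃ b d, b < K ∧ J ∣ b ∧ d ≤ J ∧ j = b + d := by
      rcases hj.eq_or_lt with rfl | hj
      · obtain ⟨m, rfl⟩ : ∃ m, M = m + 1 := ⟨M - 1, by omega⟩
        exact ⟨J * m, J, by rw [hK]; nlinarith, dvd_mul_right _ _, le_rfl, by rw [hK]; ring⟩
      · exact ⟨J * (j / J), j % J, lt_of_le_of_lt (Nat.mul_div_le j J) hj, dvd_mul_right _ _,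
          (Nat.mod_lt j hJ).le, (Nat.div_add_mod j J).symm⟩
    refine (E5 b hb hd d hj).trans ?_
    gcongr
  have E7 : ∀ j ≤ K, ∀ r ≤ R, ‖h (VV α j r) - h (VV α j 0)‖ ≤ 3 * r * B := by
    intro j hj r
    induction r with
    | zero => intro _; simp
    | succ r ih =>
      intro hr
      have b1 := ha3 j hj r hr _ (VV_mem α j r).2 _ (VV_mem α j r).1
      refine (tri2 _ _ _ b1 (ih (by omega))).trans (le_of_eq ?_)
      push_cast; ring
  have E8 : ∀ j ≤ K, ∀ r < R, ∀ u ∈ arm α j r, ‖h u - h (VV α j 0)‖ ≤ 3 * R * B := by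
    intro j hj r hr u hu
    have b1 := ha3 j hj r hr _ hu _ (VV_mem α j r).1
    refine (tri2 _ _ _ b1 (E7 j hj r hr.le)).trans ?_
    have hr' : (r : ℝ) + 1 ≤ R := by exact_mod_cast hr
    nlinarith
  have E9 : ∀ r < R, ∀ j ≤ K, ‖O j r - h p - α * Complex.I *
      ∑ i ∈ Finset.range (j + 1), (h (VV α i r) - h (VV α i (r + 1)))‖ ≤
      (3 * R + 1) * B + (j + 1) * (3 * α ^ 2 * B) + j * ((H * (2 + α ^ 2 / 4) + 4 / n) * B) := by
    intro r hr j
    induction j with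
    | zero =>
      intro hj
      have b1 := E1 0 hj r hr
      have b2 : ‖N 0 r - h (VV α 0 0)‖ ≤ 3 * R * B := by
        rw [hN]
        exact norm_int_sub_const_le (cI 0 hj r hr) fun s hs => E8 0 hj r hr _ (mI 0 r s hs)
      have b3 : ‖h (VV α 0 0) - h p‖ ≤ B := by simpa [VV_zero] using hp
      have := tri2 _ _ _ b2 b3
      rw [Finset.sum_range_one, show O 0 r - h p - α * Complex.I * (h (VV α 0 r) - h (VV α 0 (r + 1))) =
        (O 0 r - N 0 r - α * Complex.I * (h (VV α 0 r) - h (VV α 0 (r + 1)))) + (N 0 r - h p) by ring]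
      refine (norm_add_le _ _).trans ?_
      push_cast
      linarith
    | succ j ih =>
      intro hj
      have b1 := E1 (j + 1) hj r hr
      have b2 := E2 j hj r hr
      have b3 := ih (by omega)
      rw [Finset.sum_range_succ _ (j + 1)]
      generalize ∑ i ∈ Finset.range (j + 1), (h (VV α i r) - h (VV α i (r + 1))) = T at b3 ⊢
      rw [show O (j + 1) r - h p - α * Complex.I * (T + (h (VV α (j + 1) r) - h (VV α (j + 1) (r + 1)))) =
        (O (j + 1) r - N (j + 1) r - α * Complex.I * (h (VV α (j + 1) r) - h (VV α (j + 1) (r + 1)))) +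
          (N (j + 1) r - O j r) + (O j r - h p - α * Complex.I * T) by ring]
      refine norm_add₃_le.trans ?_
      push_cast
      linarith
  have E10 : ∀ r < R, ‖h q - h p - α * Complex.I *
      ∑ i ∈ Finset.range (K + 1), (h (VV α i r) - h (VV α i (r + 1)))‖ ≤
      (6 * R + 3) * B + (K + 1) * (3 * α ^ 2 * B) + K * ((H * (2 + α ^ 2 / 4) + 4 / n) * B) := by
    intro r hr
    have b3 := E9 r hr K le_rfl
    have b2 : ‖O K r - h (VV α K 0)‖ ≤ 3 * R * B := by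
      rw [hO]
      exact norm_int_sub_const_le (cO K le_rfl r hr) fun s hs => E8 K le_rfl r hr _ (mO K r s hs)
    rw [norm_sub_rev] at b2
    rw [← VV_zero α] at hq
    have b1 := tri2 _ _ _ hq b2
    generalize ∑ i ∈ Finset.range (K + 1), (h (VV α i r) - h (VV α i (r + 1))) = T at b3 ⊢
    rw [show h q - h p - α * Complex.I * T = (h q - O K r) + (O K r - h p - α * Complex.I * T) by ring]
    refine (norm_add_le _ _).trans ?_
    linarith
  have E11 : (R : ℂ) * (h q - h p) = ∑ r ∈ Finset.range R, (h q - h p - α * Complex.I *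
      ∑ i ∈ Finset.range (K + 1), (h (VV α i r) - h (VV α i (r + 1)))) +
      α * Complex.I * ∑ i ∈ Finset.range (K + 1), (h (VV α i 0) - h (VV α i R)) := by
    rw [Finset.sum_sub_distrib, ← Finset.mul_sum, Finset.sum_comm]
    simp only [Finset.sum_range_sub' (fun r => h (VV α _ r))]
    simp [mul_sub]
  have E12 := congrArg norm E11
  rw [norm_mul, Complex.norm_natCast] at E12
  rw [E12]
  refine (norm_add_le _ _).trans (add_le_add ?_ ?_)
  · refine (norm_sum_le _ _).trans ?_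
    refine (Finset.sum_le_card_nsmul _ _ _ fun r hr => E10 r (Finset.mem_range.1 hr)).trans ?_
    rw [Finset.card_range, nsmul_eq_mul]
  · rw [norm_mul, norm_mul, Complex.norm_I, mul_one, Complex.norm_real, Real.norm_eq_abs,
      abs_of_pos h0]
    gcongr
    refine (norm_sum_le _ _).trans ?_
    refine (Finset.sum_le_card_nsmul _ _ _ fun i hi =>
      E6 i (Nat.lt_succ_iff.1 (Finset.mem_range.1 hi))).trans ?_
    simp

end Pool.Agent.P.MP_192c68_an
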