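import Pool.Agent.P.MP_192c68_an.Step

/-! The compact set: gadgets placed in the gaps of a fat Cantor set. -/

namespace Pool.Agent.P.MP_192c68_an

open Set Filter Topology MeasureTheory

theorem exists_K : ∃ K : Set ℝ, IsCompact K ∧ K ⊆ Icc 0 1 ∧ 0 ∈ K ∧ 1 ∈ K ∧
    (∀ x y : ℝ, x < y → ∃ w ∈ Ioo x y, w ∉ K) ∧ 1 / 2 ≤ volume.real (K ∩ Ioc 0 1) := by
  have hc : volume (range ((↑) : ℚ → ℝ)) < ENNReal.ofReal (1 / 2) := by
    rw [(countable_range _).measure_zero]; simp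
  obtain ⟨U, hU1, hU2, hU3⟩ := Set.exists_isOpen_lt_of_lt _ _ hc
  have ho : IsOpen (U \ {0, 1}) := hU2.sdiff (toFinite _).isClosed
  refine ⟨Icc 0 1 \ (U \ {0, 1}), isCompact_Icc.diff ho, sdiff_subset, by simp, by simp, ?_, ?_⟩
  · intro x y hxy
    have hd : Dense (range ((↑) : ℚ → ℝ) \ {0, 1}) :=
      Dense.sdiff_finite Rat.denseRange_cast (toFinite _)
    obtain ⟨w, hw1, hw2⟩ := hd.inter_open_nonempty _ isOpen_Ioo (nonempty_Ioo.2 hxy)
    exact ⟨w, hw1, fun h => h.2 ⟨hU1 hw2.1, hw2.2⟩⟩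
  · have h1 : Ioc (0 : ℝ) 1 ⊆ ((Icc 0 1 \ (U \ {0, 1})) ∩ Ioc 0 1) ∪ U := by
      intro x hx
      by_cases h : x ∈ U
      · exact Or.inr h
      · exact Or.inl ⟨⟨Ioc_subset_Icc_self hx, fun h' => h h'.1⟩, hx⟩
    have hfin : volume ((Icc (0 : ℝ) 1 \ (U \ {0, 1})) ∩ Ioc 0 1) ≠ ⊤ :=
      measure_ne_top_of_subset inter_subset_right (by simp)
    have h2 := (measureReal_mono (μ := volume) h1
      (measure_union_ne_top hfin (hU3.trans ENNReal.ofReal_lt_top).ne)).trans (measureReal_union_le _ _)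
    have h3 : volume.real U ≤ 1 / 2 := ENNReal.toReal_le_of_le_ofReal (by norm_num) hU3.le
    rw [Real.volume_real_Ioc_of_le zero_le_one] at h2
    linarith

theorem exists_phi {K : Set ℝ} (hK : IsCompact K) : ∃ φ : ℝ → ℝ, Continuous φ ∧ Monotone φ ∧
    (∀ a b, a ≤ b → Disjoint (Ioo a b) K → φ b = φ a) ∧
    φ 1 - φ 0 = volume.real (K ∩ Ioc 0 1) := by
  have hfin : ∀ s, volume (K ∩ s) ≠ ⊤ := fun s =>
    measure_ne_top_of_subset inter_subset_left hK.measure_ne_top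
  have key : ∀ x y : ℝ, x ≤ y →
      volume.real (K ∩ Iic y) - volume.real (K ∩ Iic x) = volume.real (K ∩ Ioc x y) := by
    intro x y hxy
    rw [← Iic_union_Ioc_eq_Iic hxy, inter_union_distrib_left, measureReal_union
      ((Iic_disjoint_Ioc le_rfl).mono inter_subset_right inter_subset_right)
      (hK.measurableSet.inter measurableSet_Ioc) (hfin _) (hfin _)]
    ring
  have hm : Monotone fun x => volume.real (K ∩ Iic x) := fun x y hxy => by
    have := key x y hxy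
    have h2 : 0 ≤ volume.real (K ∩ Ioc x y) := measureReal_nonneg
    simp only; linarith
  refine ⟨fun x => volume.real (K ∩ Iic x), ?_, hm, ?_, key 0 1 zero_le_one⟩
  · refine (LipschitzWith.of_le_add fun x y => ?_).continuous
    rcases le_total x y with h | h
    · exact (hm h).trans (le_add_of_nonneg_right dist_nonneg)
    · have h1 := key y x h
      have h2 : volume.real (K ∩ Ioc y x) ≤ volume.real (Ioc y x) :=
        measureReal_mono inter_subset_right (by simp)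
      rw [Real.volume_real_Ioc_of_le h] at h2
      rw [Real.dist_eq, abs_of_nonneg (by linarith)]
      linarith
  · intro a b hab hd
    have h1 := key a b hab
    have h2 : volume.real (K ∩ Ioc a b) ≤ volume.real ({b} : Set ℝ) := by
      refine measureReal_mono (fun x hx => ?_) (by simp)
      rcases hx.2.2.eq_or_lt with h | h
      · exact h
      · exact absurd hx.1 (disjoint_left.1 hd ⟨hx.2.1, h⟩)
    have h3 : volume.real ({b} : Set ℝ) = 0 := by simp [Measure.real]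
    have h4 := hm hab
    simp only at h4 ⊢
    linarith

def IsGap (K : Set ℝ) (g : ℝ × ℝ) : Prop :=
  g.1 < g.2 ∧ g.1 ∈ K ∧ g.2 ∈ K ∧ Disjoint (Ioo g.1 g.2) K

theorem gap_exists {K : Set ℝ} (hK : IsCompact K) (h0 : (0 : ℝ) ∈ K) (h1 : (1 : ℝ) ∈ K) {x : ℝ}
    (hx0 : 0 ≤ x) (hx1 : x ≤ 1) (hx : x ∉ K) : ∃ g, IsGap K g ∧ g.1 < x ∧ x < g.2 := by
  obtain ⟨a, ha, ha'⟩ := (hK.inter_right isClosed_Iic).exists_isGreatest ⟨0, h0, hx0⟩
  obtain ⟨b, hb, hb'⟩ := (hK.inter_right isClosed_Ici).exists_isLeast ⟨1, h1, hx1⟩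
  have hax : a < x := lt_of_le_of_ne ha.2 fun h => hx (h ▸ ha.1)
  have hxb : x < b := lt_of_le_of_ne hb.2 fun h => hx (h ▸ hb.1)
  refine ⟨(a, b), ⟨hax.trans hxb, ha.1, hb.1, disjoint_left.2 fun y hy hyK => ?_⟩, hax, hxb⟩
  rcases le_total y x with h | h
  · exact absurd (ha' ⟨hyK, h⟩) (not_le.2 hy.1)
  · exact absurd (hb' ⟨hyK, h⟩) (not_le.2 hy.2)

theorem gap_unique {K : Set ℝ} {g g' : ℝ × ℝ} (hg : IsGap K g) (hg' : IsGap K g') {x : ℝ}
    (h1 : g.1 < x) (h2 : x < g.2) (h3 : g'.1 ≤ x) (h4 : x ≤ g'.2) : g = g' := by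
  have n1 := disjoint_right.1 hg.2.2.2
  have n2 := disjoint_right.1 hg'.2.2.2
  have a1 : g'.1 ≤ g.1 := not_lt.1 fun h => n1 hg'.2.1 ⟨h, by linarith⟩
  have a2 : g.2 ≤ g'.2 := not_lt.1 fun h => n1 hg'.2.2.1 ⟨by linarith, h⟩
  have a3 : g.1 ≤ g'.1 := not_lt.1 fun h => n2 hg.2.1 ⟨h, by linarith⟩
  have a4 : g'.2 ≤ g.2 := not_lt.1 fun h => n2 hg.2.2.1 ⟨by linarith, h⟩
  exact Prod.ext (le_antisymm a3 a1) (le_antisymm a2 a4)

theorem crossing {u : ℝ → ℝ} {s t A B : ℝ} (hst : s ≤ t) (hu : ContinuousOn u (Icc s t))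
    (hAB : A < B) (hA : u s ≤ A) (hB : B ≤ u t) :
    ∃ s' t', s ≤ s' ∧ s' < t' ∧ t' ≤ t ∧ u s' = A ∧ u t' = B ∧ ∀ x ∈ Ioo s' t', A < u x ∧ u x < B := by
  have c1 : IsCompact (Icc s t ∩ u ⁻¹' {A}) :=
    isCompact_Icc.of_isClosed_subset (hu.preimage_isClosed_of_isClosed isClosed_Icc
      isClosed_singleton) inter_subset_left
  obtain ⟨s0, hs0, hs0'⟩ := intermediate_value_Icc hst hu ⟨hA, hAB.le.trans hB⟩
  obtain ⟨s', ⟨hs, hsA⟩, hmax⟩ := c1.exists_isGreatest ⟨s0, hs0, hs0'⟩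
  have hsA : u s' = A := hsA
  have hu' : ContinuousOn u (Icc s' t) := hu.mono (Icc_subset_Icc_left hs.1)
  have c2 : IsCompact (Icc s' t ∩ u ⁻¹' {B}) :=
    isCompact_Icc.of_isClosed_subset (hu'.preimage_isClosed_of_isClosed isClosed_Icc
      isClosed_singleton) inter_subset_left
  obtain ⟨t0, ht0, ht0'⟩ := intermediate_value_Icc hs.2 hu' ⟨hsA.trans_le hAB.le, hB⟩
  obtain ⟨t', ⟨ht, htB⟩, hmin⟩ := c2.exists_isLeast ⟨t0, ht0, ht0'⟩
  have htB : u t' = B := htB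
  refine ⟨s', t', hs.1, lt_of_le_of_ne ht.1 fun h => ?_, ht.2, hsA, htB, fun x hx => ⟨?_, ?_⟩⟩
  · rw [h] at hsA; linarith
  · refine not_le.1 fun h => ?_
    have hxt : x ≤ t := hx.2.le.trans ht.2
    obtain ⟨y, hy, hy'⟩ := intermediate_value_Icc hxt
      (hu'.mono (Icc_subset_Icc_left hx.1.le)) ⟨h, hAB.le.trans hB⟩
    have := hmax ⟨⟨hs.1.trans (hx.1.le.trans hy.1), hy.2⟩, hy'⟩
    linarith [hx.1, hy.1]
  · refine not_le.1 fun h => ?_
    have hxt : x ≤ t := hx.2.le.trans ht.2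
    obtain ⟨y, hy, hy'⟩ := intermediate_value_Icc hx.1.le
      (hu'.mono (Icc_subset_Icc_right hxt)) ⟨hsA.trans_le hAB.le, h⟩
    have := hmin ⟨⟨hy.1, hy.2.trans hxt⟩, hy'⟩
    linarith [hx.2, hy.2]

theorem main : ∃ X : Set ℂ, IsCompact X ∧ X ⊆ closure {z | ∃ w, z ≠ w ∧ segment ℝ z w ⊆ X} ∧
    ∃ f : ℂ → ℂ, Continuous f ∧
      (∀ (γ : ℝ → ℂ) (a b : ℝ), a ≤ b → ContinuousOn γ (Icc a b) → MapsTo γ (Icc a b) X →
        BoundedVariationOn γ (Icc a b) → f (γ b) = f (γ a)) ∧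
      ∃ p ∈ X, ∃ q ∈ X, 1 / 2 ≤ ‖f q - f p‖ ∧ ∀ (h h' : ℂ → ℂ) (B : ℝ), 0 ≤ B →
        (∀ z ∈ X, HasDerivWithinAt h (h' z) X z) → (∀ z ∈ X, ‖h' z‖ ≤ B) →
          ‖h q - h p‖ ≤ Real.exp 5 * B := by
  obtain ⟨K, hK, hK01, hK0, hK1, hKd, hKv⟩ := exists_K
  obtain ⟨φ, hφc, hφm, hφg, hφ1⟩ := exists_phi hK
  have hG : ∀ g : {g // IsGap K g}, Gad (g.1.1 : ℂ) g.1.2 1 (Real.exp 5) (1 / (g.1.2 - g.1.1)) :=
    fun g => mat_final _ _ _ (by exact_mod_cast g.2.1.ne) _ one_pos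
  choose 𝒜 g1 g2 g3 g4 g5 g6 g7 using hG
  have hnorm : ∀ g : {g // IsGap K g}, ‖(g.1.2 : ℂ) - g.1.1‖ = g.1.2 - g.1.1 := fun g => by
    rw [← Complex.ofReal_sub, Complex.norm_real, Real.norm_eq_abs, abs_of_pos (sub_pos.2 g.2.1)]
  have hbox : ∀ g, ∀ z ∈ ⋃₀ 𝒜 g, z = g.1.1 ∨ z = g.1.2 ∨
      (g.1.1 < z.re ∧ z.re < g.1.2 ∧ |z.im| < 1 * (g.1.2 - g.1.1)) := by
    rintro g z ⟨P, hP, hz⟩
    rcases g5 g P hP z hz with h | h | h
    · exact Or.inl h
    · exact Or.inr (Or.inl h)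
    · exact Or.inr (Or.inr ((mem_OBox_real g.2.1).1 h))
  have hre : ∀ g, ∀ z ∈ ⋃₀ 𝒜 g, g.1.1 ≤ z.re ∧ z.re ≤ g.1.2 ∧ |z.im| ≤ 1 := by
    intro g z hz
    have a0 := g.2.1
    have a1 := hK01 g.2.2.1
    have a2 := hK01 g.2.2.2.1
    rcases hbox g z hz with rfl | rfl | h
    · simp [a0.le]
    · simp [a0.le]
    · exact ⟨h.1.le, h.2.1.le, by linarith [h.2.2, a1.1, a2.2]⟩
  have hcl : ∀ g, IsClosed (⋃₀ 𝒜 g) := fun g => by
    rw [sUnion_eq_biUnion]
    exact (g1 g).isClosed_biUnion fun Q hQ => (g2 g Q hQ).1.isClosed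
  set X := closure (⋃ g, ⋃₀ 𝒜 g) with hX
  have hsubX : ∀ g, ⋃₀ 𝒜 g ⊆ X := fun g => (subset_iUnion (fun g => ⋃₀ 𝒜 g) g).trans subset_closure
  have hXre : ∀ z ∈ X, 0 ≤ z.re ∧ z.re ≤ 1 ∧ |z.im| ≤ 1 := by
    refine closure_minimal (t := {z : ℂ | 0 ≤ z.re ∧ z.re ≤ 1 ∧ |z.im| ≤ 1}) ?_ ?_
    · intro z hz
      obtain ⟨g, hg⟩ := mem_iUnion.1 hz
      have := hre g z hg
      exact ⟨(hK01 g.2.2.1).1.trans this.1, this.2.1.trans (hK01 g.2.2.2.1).2, this.2.2⟩
    · exact (isClosed_le continuous_const Complex.continuous_re).inter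
        ((isClosed_le Complex.continuous_re continuous_const).inter
          (isClosed_le Complex.continuous_im.abs continuous_const))
  have hstrip : ∀ g : {g // IsGap K g}, ∀ z ∈ X, g.1.1 < z.re → z.re < g.1.2 → z ∈ ⋃₀ 𝒜 g := by
    intro g z hz a1 a2
    have : X ⊆ ⋃₀ 𝒜 g ∪ ({z : ℂ | z.re ≤ g.1.1} ∪ {z : ℂ | g.1.2 ≤ z.re}) := by
      refine closure_minimal ?_ ((hcl g).union ((isClosed_le Complex.continuous_re
        continuous_const).union (isClosed_le continuous_const Complex.continuous_re)))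
      intro w hw
      obtain ⟨g', hg'⟩ := mem_iUnion.1 hw
      by_cases b1 : w.re ≤ g.1.1
      · exact Or.inr (Or.inl b1)
      by_cases b2 : g.1.2 ≤ w.re
      · exact Or.inr (Or.inr b2)
      have := hre g' w hg'
      have e : g = g' :=
        Subtype.ext (gap_unique g.2 g'.2 (not_le.1 b1) (not_le.1 b2) this.1 this.2.1)
      exact Or.inl (e ▸ hg')
    rcases this hz with h | h | h
    · exact h
    · exact absurd h (not_le.2 a1)
    · exact absurd h (not_le.2 a2)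
  have hKX : ∀ c ∈ K, (c : ℂ) ∈ X := by
    intro c hc
    refine Metric.mem_closure_iff.2 fun ε hε => ?_
    obtain ⟨w, hw, hwK⟩ := hKd (max 0 (c - ε)) (min 1 (c + ε)) (by
      have := hK01 hc
      rw [max_lt_iff, lt_min_iff, lt_min_iff]
      exact ⟨⟨one_pos, by linarith [this.1]⟩, by linarith [this.2], by linarith⟩)
    have w1 := max_lt_iff.1 hw.1
    have w2 := lt_min_iff.1 hw.2
    obtain ⟨g, hg, a1, a2⟩ := gap_exists hK hK0 hK1 w1.1.le w2.1.le hwK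
    have := disjoint_right.1 hg.2.2.2 hc
    rcases le_or_gt c g.1 with h | h
    · refine ⟨g.1, mem_iUnion.2 ⟨⟨g, hg⟩, g3 _⟩, ?_⟩
      rw [Complex.dist_of_im_eq (by simp), Real.dist_eq, abs_lt]
      simp only [Complex.ofReal_re]
      constructor <;> linarith [w2.2]
    · have h' : g.2 ≤ c := not_lt.1 fun h' => this ⟨h, h'⟩
      refine ⟨g.2, mem_iUnion.2 ⟨⟨g, hg⟩, g4 _⟩, ?_⟩
      rw [Complex.dist_of_im_eq (by simp), Real.dist_eq, abs_lt]
      simp only [Complex.ofReal_re]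
      constructor <;> linarith [w1.2]
  have hgap : ∀ x y : ℝ, 0 ≤ x → y ≤ 1 → φ x < φ y →
      ∃ g : {g // IsGap K g}, φ x < φ g.1.1 ∧ φ g.1.2 = φ g.1.1 ∧ φ g.1.1 < φ y := by
    intro x y hx hy hxy
    have hle : x ≤ y := (hφm.reflect_lt hxy).le
    obtain ⟨x1, hx1, e1⟩ := intermediate_value_Icc hle hφc.continuousOn
      (show (2 * φ x + φ y) / 3 ∈ Icc (φ x) (φ y) from ⟨by linarith, by linarith⟩)
    obtain ⟨y1, hy1, e2⟩ := intermediate_value_Icc hle hφc.continuousOn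
      (show (φ x + 2 * φ y) / 3 ∈ Icc (φ x) (φ y) from ⟨by linarith, by linarith⟩)
    obtain ⟨w, hw, hwK⟩ := hKd x1 y1 (hφm.reflect_lt (by linarith))
    obtain ⟨g, hg, a1, a2⟩ := gap_exists hK hK0 hK1 (by linarith [hw.1, hx1.1])
      (by linarith [hw.2, hy1.2]) hwK
    have b1 := hφg _ _ hg.1.le hg.2.2.2
    have b2 := hφm a1.le
    have b3 := hφm a2.le
    have b4 := hφm hw.1.le
    have b5 := hφm hw.2.le
    exact ⟨⟨g, hg⟩, by simp only; linarith, b1, by simp only; linarith⟩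
  refine ⟨X, ?_, ?_, fun z => (φ z.re : ℂ), by fun_prop, ?_, 0, by simpa using hKX 0 hK0, 1,
    by simpa using hKX 1 hK1, ?_, ?_⟩
  · refine Metric.isCompact_of_isClosed_isBounded isClosed_closure
      ((Metric.isBounded_closedBall (x := (0 : ℂ)) (r := 2)).subset fun z hz => ?_)
    have := hXre z hz
    rw [mem_closedBall_zero_iff]
    refine (Complex.norm_le_abs_re_add_abs_im z).trans ?_
    rw [abs_of_nonneg this.1]; linarith [this.2.1, this.2.2]
  · refine closure_mono fun z hz => ?_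
    obtain ⟨g, P, hP, hzP⟩ := mem_iUnion.1 hz
    obtain ⟨w, hw, hwz⟩ := (g2 g P hP).2.2.exists_ne z
    exact ⟨w, hwz.symm, (((g2 g P hP).2.1.segment_subset hzP hw).trans
      (subset_sUnion_of_mem hP)).trans (hsubX g)⟩
  · intro γ a b hab hγ hm hbv
    have cross : ∀ t ∈ Icc a b, φ (γ a).re ≠ φ (γ t).re → ∃ s ∈ Icc a t,
        φ (γ a).re ≠ φ (γ s).re ∧ 1 ≤ eVariationOn γ (Icc s t) := by
      intro t ht hne
      have hγ' : ContinuousOn γ (Icc a t) := hγ.mono (Icc_subset_Icc_right ht.2)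
      have hu : ContinuousOn (fun x => (γ x).re) (Icc a t) :=
        Complex.continuous_re.comp_continuousOn hγ'
      have ra := hXre _ (hm (left_mem_Icc.2 hab))
      have rt := hXre _ (hm ht)
      obtain ⟨g, s', t', c1, c2, c3, c4, c5, c6⟩ : ∃ (g : {g // IsGap K g}) (s' t' : ℝ),
          a ≤ s' ∧ s' < t' ∧ t' ≤ t ∧ φ (γ a).re ≠ φ g.1.1 ∧
          ((γ s').re = g.1.1 ∧ (γ t').re = g.1.2 ∨ (γ s').re = g.1.2 ∧ (γ t').re = g.1.1) ∧
          ∀ x ∈ Ioo s' t', g.1.1 < (γ x).re ∧ (γ x).re < g.1.2 := by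
        rcases lt_or_gt_of_ne hne with h | h
        · obtain ⟨g, d1, d2, d3⟩ := hgap _ _ ra.1 rt.2.1 h
          obtain ⟨s', t', e1, e2, e3, e4, e5, e6⟩ := crossing ht.1 hu g.2.1
            (hφm.reflect_lt d1).le (hφm.reflect_lt (d2.trans_lt d3)).le
          exact ⟨g, s', t', e1, e2, e3, d1.ne, Or.inl ⟨e4, e5⟩, e6⟩
        · obtain ⟨g, d1, d2, d3⟩ := hgap _ _ rt.1 ra.2.1 h
          obtain ⟨s', t', e1, e2, e3, e4, e5, e6⟩ := crossing ht.1 hu.neg (neg_lt_neg g.2.1)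
            (neg_le_neg (hφm.reflect_lt (d2.trans_lt d3)).le) (neg_le_neg (hφm.reflect_lt d1).le)
          exact ⟨g, s', t', e1, e2, e3, d3.ne', Or.inr ⟨neg_injective e4, neg_injective e5⟩,
            fun x hx => ⟨neg_lt_neg_iff.1 (e6 x hx).2, neg_lt_neg_iff.1 (e6 x hx).1⟩⟩
      have hγ2 : ContinuousOn γ (Icc s' t') := hγ'.mono (Icc_subset_Icc c1 c3)
      have hm1 : MapsTo γ (Ioo s' t') (⋃₀ 𝒜 g) := fun x hx =>
        hstrip g _ (hm ⟨c1.trans hx.1.le, hx.2.le.trans (c3.trans ht.2)⟩) (c6 x hx).1 (c6 x hx).2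
      have hm2 : MapsTo γ (Icc s' t') (⋃₀ 𝒜 g) := by
        have := hm1.closure_of_continuousOn (by rwa [closure_Ioo c2.ne])
        rwa [closure_Ioo c2.ne, (hcl g).closure_eq] at this
      have n1 : ∀ z ∈ ⋃₀ 𝒜 g, z.re = g.1.1 → z = g.1.1 := by
        intro z hz hz'
        rcases hbox g z hz with h | rfl | h
        · exact h
        · exact absurd hz' (by simpa using g.2.1.ne')
        · linarith [h.1]
      have n2 : ∀ z ∈ ⋃₀ 𝒜 g, z.re = g.1.2 → z = g.1.2 := by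
        intro z hz hz'
        rcases hbox g z hz with rfl | h | h
        · exact absurd hz' (by simpa using g.2.1.ne)
        · exact h
        · linarith [h.2.1]
      obtain ⟨F, hF, hF'⟩ := g6 g
      rw [hnorm, one_div_mul_cancel (sub_pos.2 g.2.1).ne'] at hF'
      have pl := path_lemma (F := F) (γ := γ) (b := t') _ (𝒜 g) (g1 g) le_rfl
        (fun P hP => (g2 g P hP).1.isClosed) hF s' c2.le hγ2 hm2
      have ms := hm2 (left_mem_Icc.2 c2.le)
      have mt := hm2 (right_mem_Icc.2 c2.le)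
      refine ⟨s', ⟨c1, c2.le.trans c3⟩, ?_, le_trans ?_
        (pl.trans (eVariationOn.mono _ (Icc_subset_Icc_right c3)))⟩
      · rcases c5 with c5 | c5
        · rwa [c5.1]
        · rwa [c5.1, hφg _ _ g.2.1.le g.2.2.2.2]
      · rw [ENNReal.one_le_ofReal]
        rcases c5 with c5 | c5
        · rw [n1 _ ms c5.1, n2 _ mt c5.2]; exact hF'.trans (le_abs_self _)
        · rw [n2 _ ms c5.1, n1 _ mt c5.2, abs_sub_comm]; exact hF'.trans (le_abs_self _)
    have big : ∀ N : ℕ, ∀ t ∈ Icc a b, φ (γ a).re ≠ φ (γ t).re → N ≤ eVariationOn γ (Icc a t) := by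
      intro N
      induction N with
      | zero => intros; simp
      | succ N ih =>
        intro t ht hne
        obtain ⟨s, hs, hne', h1⟩ := cross t ht hne
        rw [← var_add γ hs.1 hs.2]
        push_cast
        exact add_le_add (ih s ⟨hs.1, hs.2.trans ht.2⟩ hne') h1
    by_contra hne
    obtain ⟨N, hN⟩ := ENNReal.exists_nat_gt hbv
    exact absurd (big N b (right_mem_Icc.2 hab) fun h => hne (by simp only [h])) (not_le.2 hN)
  · simp only [Complex.one_re, Complex.zero_re]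
    rw [← Complex.ofReal_sub, Complex.norm_real, hφ1]
    exact hKv.trans (le_abs_self _)
  · intro h h' B hB hd hb
    have hH : 1 ≤ Real.exp 5 := Real.one_le_exp (by norm_num)
    have hgd : ∀ g : {g // IsGap K g}, ‖h g.1.2 - h g.1.1‖ ≤ Real.exp 5 * B * (g.1.2 - g.1.1) := by
      intro g
      rw [← hnorm]
      refine g7 g h B hB fun P hP => ?_
      have hPX : P ⊆ X := (subset_sUnion_of_mem hP).trans (hsubX g)
      refine ⟨fun u hu v hv => (g2 g P hP).2.1.norm_image_sub_le_of_norm_hasDerivWithin_le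
        (fun z hz => (hd z (hPX hz)).mono hPX) (fun z hz => hb z (hPX hz)) hv hu, fun z hz => ?_⟩
      exact ((hd z (hPX (interior_subset hz))).mono
        (interior_subset.trans hPX)).differentiableWithinAt
    refine le_of_forall_pos_le_add fun ε hε => ?_
    set C := Real.exp 5 * B + ε with hC
    have hcont : ContinuousOn (fun x : ℝ => ‖h x - h 0‖ - C * x) K := by
      have : ContinuousOn (fun x : ℝ => h x) K :=
        ContinuousOn.comp (g := h) (fun z hz => (hd z hz).continuousWithinAt)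
          Complex.continuous_ofReal.continuousOn hKX
      exact (this.sub continuousOn_const).norm.sub (continuousOn_const.mul continuousOn_id)
    have hT : IsCompact (K ∩ (fun x : ℝ => ‖h x - h 0‖ - C * x) ⁻¹' Iic 0) :=
      hK.of_isClosed_subset (hcont.preimage_isClosed_of_isClosed hK.isClosed isClosed_Iic)
        inter_subset_left
    obtain ⟨c, ⟨hcK, hc⟩, hmax⟩ := hT.exists_isGreatest ⟨0, hK0, by simp⟩
    have hc : ‖h c - h 0‖ - C * c ≤ 0 := hc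
    rcases (hK01 hcK).2.eq_or_lt with rfl | hc1
    · simpa using hc
    exfalso
    have hstep : ∀ y ∈ K, c < y → ¬ ‖h y - h c‖ ≤ C * (y - c) := by
      intro y hy hcy hle
      have := tri2 _ _ _ hle (sub_nonpos.1 hc)
      refine absurd (hmax ⟨hy, ?_⟩) (not_le.2 hcy)
      change ‖h y - h 0‖ - C * y ≤ 0
      linarith
    have hlo := (hd c (hKX c hcK)).isLittleO.def hε
    obtain ⟨δ, hδ, hδ'⟩ := Metric.eventually_nhds_iff.1 (eventually_nhdsWithin_iff.1 hlo)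
    obtain ⟨w, hw, hwK⟩ := hKd c (min 1 (c + δ)) (lt_min hc1 (by linarith))
    have w2 := lt_min_iff.1 hw.2
    obtain ⟨g, hg, a1, a2⟩ := gap_exists hK hK0 hK1 ((hK01 hcK).1.trans hw.1.le) w2.1.le hwK
    have hcg : c ≤ g.1 := not_lt.1 fun h' =>
      disjoint_right.1 hg.2.2.2 hcK ⟨h', hw.1.trans a2⟩
    rcases hcg.eq_or_lt with rfl | hcg
    · refine hstep g.2 hg.2.2.1 hg.1 ((hgd ⟨g, hg⟩).trans ?_)
      have := sub_pos.2 hg.1
      simp only
      gcongr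
      linarith
    · refine hstep g.1 hg.2.1 hcg ?_
      have hn : ‖(g.1 : ℂ) - c‖ = g.1 - c := by
        rw [← Complex.ofReal_sub, Complex.norm_real, Real.norm_eq_abs, abs_of_pos (sub_pos.2 hcg)]
      have b1 := hδ' (y := g.1) (by rw [dist_eq_norm, hn]; linarith [w2.2]) (hKX _ hg.2.1)
      have b2 : ‖((g.1 : ℂ) - c) • h' c‖ ≤ (g.1 - c) * B := by
        rw [norm_smul, hn]
        have := sub_pos.2 hcg
        gcongr
        exact hb _ (hKX c hcK)
      have b3 := norm_add_le (h g.1 - h c - ((g.1 : ℂ) - c) • h' c) (((g.1 : ℂ) - c) • h' c)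
      rw [sub_add_cancel] at b3
      rw [hn] at b1
      have b4 : (g.1 - c) * B ≤ (g.1 - c) * (Real.exp 5 * B) := by
        have := sub_pos.2 hcg
        gcongr
        exact le_mul_of_one_le_left hB hH
      rw [hC]
      nlinarith

theorem seg_path {X : Set ℂ} {z w : ℂ} (hzw : z ≠ w) (hX : segment ℝ z w ⊆ X) {τ : ℝ}
    (h1 : τ ≤ 1) :
    ContinuousOn (fun t : ℝ => z + t * (w - z)) (Icc 0 τ) ∧
      MapsTo (fun t : ℝ => z + t * (w - z)) (Icc 0 τ) X ∧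
      BoundedVariationOn (fun t : ℝ => z + t * (w - z)) (Icc 0 τ) ∧
      Function.Injective (fun t : ℝ => z + t * (w - z)) := by
  refine ⟨by fun_prop, fun t ht => hX (seg_mem.2 ⟨t, ht.1, ht.2.trans h1, rfl⟩), ?_, ?_⟩
  · have : LipschitzWith ‖w - z‖₊ (fun t : ℝ => z + t * (w - z)) := by
      refine LipschitzWith.of_dist_le_mul fun s t => le_of_eq ?_
      rw [dist_eq_norm, add_sub_add_left_eq_sub, ← sub_mul, norm_mul, ← Complex.ofReal_sub,
        Complex.norm_real, mul_comm, dist_eq_norm]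
      rfl
    exact this.comp_boundedVariationOn (BoundedVariationOn.id_Icc 0 τ)
  · intro s t h
    have h := mul_right_cancel₀ (sub_ne_zero.2 hzw.symm) (add_left_cancel h)
    exact_mod_cast h

theorem seg_bound {k : ℂ → ℂ} {z v I : ℂ} {B τ : ℝ} (h0 : 0 < τ)
    (hk : ∀ t ∈ Icc (0 : ℝ) τ, ‖k (z + t * v)‖ ≤ B)
    (hI : ∀ ε > (0 : ℝ), ∃ δ > (0 : ℝ), ∀ (n : ℕ) (t ξ : ℕ → ℝ), t 0 = 0 → t n = τ →
      (∀ i < n, t i ≤ ξ i ∧ ξ i ≤ t (i + 1) ∧ t (i + 1) - t i < δ) →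
      ‖∑ i ∈ Finset.range n, k (z + ξ i * v) * ((z + t (i + 1) * v) - (z + t i * v)) - I‖ < ε) :
    ‖I‖ ≤ B * (τ * ‖v‖) := by
  refine le_of_forall_pos_le_add fun ε hε => ?_
  obtain ⟨δ, hδ, h⟩ := hI ε hε
  obtain ⟨n, hn⟩ := exists_nat_gt (τ / δ)
  have hn0 : (0 : ℝ) < n := (div_pos h0 hδ).trans hn
  have hτ : 0 < τ / n := div_pos h0 hn0
  have h1 := h n (fun i => i * (τ / n)) (fun i => i * (τ / n)) (by simp) (by field_simp)
    (fun i _ => ⟨le_rfl, by push_cast; linarith, by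
      push_cast
      rw [div_lt_iff₀ hδ] at hn
      have : τ / n < δ := by rw [div_lt_iff₀ hn0]; linarith
      linarith⟩)
  set T := ∑ i ∈ Finset.range n, k (z + ((i * (τ / n) : ℝ) : ℂ) * v) *
    ((z + ((((i + 1 : ℕ) : ℝ) * (τ / n) : ℝ) : ℂ) * v) - (z + ((i * (τ / n) : ℝ) : ℂ) * v)) with hT
  have h2 : ‖T‖ ≤ B * (τ * ‖v‖) := by
    refine (norm_sum_le _ _).trans ?_
    refine (Finset.sum_le_card_nsmul _ _ (B * (τ / n * ‖v‖)) fun i hi => ?_).trans (le_of_eq ?_)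
    · have hi : (i : ℝ) ≤ n := by exact_mod_cast (Finset.mem_range.1 hi).le
      have e : (z + ((((i + 1 : ℕ) : ℝ) * (τ / n) : ℝ) : ℂ) * v) - (z + ((i * (τ / n) : ℝ) : ℂ) * v) =
          ((τ / n : ℝ) : ℂ) * v := by push_cast; ring
      rw [e, norm_mul, norm_mul, Complex.norm_real, Real.norm_eq_abs, abs_of_pos hτ]
      gcongr
      refine hk _ ⟨by positivity, ?_⟩
      calc _ ≤ n * (τ / n) := by gcongr
        _ = τ := by field_simp
    · rw [Finset.card_range, nsmul_eq_mul]; field_simp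
  have h3 := norm_sub_le T (T - I)
  rw [sub_sub_cancel] at h3
  linarith

theorem deriv_bound {X : Set ℂ} {h : ℂ → ℂ} {d z w : ℂ} {B : ℝ} (hzw : z ≠ w)
    (hX : segment ℝ z w ⊆ X) (hd : HasDerivWithinAt h d X z)
    (hb : ∀ τ : ℝ, 0 < τ → τ ≤ 1 → ‖h (z + τ * (w - z)) - h z‖ ≤ B * (τ * ‖w - z‖)) : ‖d‖ ≤ B := by
  have hwz : w - z ≠ 0 := sub_ne_zero.2 hzw.symm
  have h1 := hasDerivWithinAt_iff_tendsto_slope.1 hd
  have h2 : Tendsto (fun τ : ℝ => z + τ * (w - z)) (𝓝[>] 0) (𝓝[X \ {z}] z) := by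
    refine tendsto_nhdsWithin_iff.2 ⟨?_, ?_⟩
    · have : Continuous fun τ : ℝ => z + τ * (w - z) := by fun_prop
      simpa using (this.tendsto 0).mono_left nhdsWithin_le_nhds
    · filter_upwards [Ioo_mem_nhdsGT one_pos] with τ hτ
      refine ⟨hX (seg_mem.2 ⟨τ, hτ.1.le, hτ.2.le, rfl⟩), ?_⟩
      simp [hwz, hτ.1.ne']
  refine le_of_tendsto (h1.comp h2).norm ?_
  filter_upwards [Ioo_mem_nhdsGT one_pos] with τ hτ
  have hp : 0 < τ * ‖w - z‖ := mul_pos hτ.1 (norm_pos_iff.2 hwz)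
  simp only [Function.comp, slope_def_field]
  rw [norm_div, add_sub_cancel_left, norm_mul, Complex.norm_real, Real.norm_eq_abs,
    abs_of_pos hτ.1, div_le_iff₀ hp]
  exact hb τ hτ.1 hτ.2.le

end Pool.Agent.P.MP_192c68_an
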