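import Pool.Agent.P.MP_192c68_an.Hol

/-! One improvement step and its iteration. -/

namespace Pool.Agent.P.MP_192c68_an

open Set Filter Topology

def WI (K R n : ℕ) : Set (ℕ × ℕ × ℕ) := Iio K ×ˢ Iio R ×ˢ Iio n

noncomputable def wseg (α : ℝ) (n : ℕ) (x : ℕ × ℕ × ℕ) (a b : ℝ) : Set ℂ :=
  segment ℝ (wp α x.1 x.2.1 (ss n x.2.2) a) (wp α x.1 x.2.1 (ss n x.2.2) b)

noncomputable def Skel (α η : ℝ) (n J K R : ℕ) : Set (Set ℂ) :=
  (fun x : ℕ × ℕ => arm α x.1 x.2) '' (Iic K ×ˢ Iio R) ∪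
  ((fun x => wseg α n x 0 η) '' WI K R n ∪ ((fun x => wseg α n x (1 - η) 1) '' WI K R n ∪
  ((fun x => wseg α n x 0 1) '' {x | x ∈ WI K R n ∧ J ∣ x.1} ∪
  (bus α R '' {j | j < K ∧ J ∣ j} ∪
  {segment ℝ ((-1 : ℝ) : ℂ) ((0 : ℝ) : ℂ), segment ℝ ((2 * K : ℝ) : ℂ) ((2 * K + 2 : ℝ) : ℂ)}))))

theorem WI_finite (K R n : ℕ) : (WI K R n).Finite :=
  (finite_Iio K).prod ((finite_Iio R).prod (finite_Iio n))

theorem skel_finite (α η : ℝ) (n J K R : ℕ) : (Skel α η n J K R).Finite := by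
  refine (((finite_Iic K).prod (finite_Iio R)).image _).union (((WI_finite K R n).image _).union
    (((WI_finite K R n).image _).union ((((WI_finite K R n).subset fun x hx => hx.1).image _).union
    ((((finite_Iio K).subset fun x hx => hx.1).image _).union (toFinite _)))))

theorem skel_cases {α η : ℝ} (h0 : 0 < η) (h1 : η < 1 / 2) {n J K R : ℕ} {P : Set ℂ}
    (hP : P ∈ Skel α η n J K R) :
    (∃ j ≤ K, ∃ r < R, P = arm α j r) ∨
    (∃ x ∈ WI K R n, ∃ a b : ℝ, 0 ≤ a ∧ a < b ∧ b ≤ 1 ∧ (b ≤ η ∨ 1 - η ≤ a ∨ J ∣ x.1) ∧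
      P = wseg α n x a b) ∨
    (∃ j < K, J ∣ j ∧ P = bus α R j) ∨ P = segment ℝ ((-1 : ℝ) : ℂ) ((0 : ℝ) : ℂ) ∨
    P = segment ℝ ((2 * K : ℝ) : ℂ) ((2 * K + 2 : ℝ) : ℂ) := by
  rcases hP with ⟨x, hx, rfl⟩ | ⟨x, hx, rfl⟩ | ⟨x, hx, rfl⟩ | ⟨x, hx, rfl⟩ | ⟨j, hj, rfl⟩ | rfl | rfl
  · exact Or.inl ⟨x.1, hx.1, x.2, hx.2, rfl⟩
  · exact Or.inr (Or.inl ⟨x, hx, 0, η, le_rfl, h0, by linarith, Or.inl le_rfl, rfl⟩)
  · exact Or.inr (Or.inl ⟨x, hx, 1 - η, 1, by linarith, by linarith, le_rfl,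
      Or.inr (Or.inl le_rfl), rfl⟩)
  · exact Or.inr (Or.inl ⟨x, hx.1, 0, 1, le_rfl, zero_lt_one, le_rfl, Or.inr (Or.inr hx.2), rfl⟩)
  · exact Or.inr (Or.inr (Or.inl ⟨j, hj.1, hj.2, rfl⟩))
  · exact Or.inr (Or.inr (Or.inr (Or.inl rfl)))
  · exact Or.inr (Or.inr (Or.inr (Or.inr rfl)))

theorem wp_ne (α : ℝ) (j r : ℕ) (s : ℝ) {a b : ℝ} (hab : a < b) : wp α j r s a ≠ wp α j r s b := by
  intro h
  have := congrArg Complex.re h
  rw [wp_re, wp_re] at this
  linarith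

theorem skel_good {α η : ℝ} (hα : 0 < α) (h0 : 0 < η) (h1 : η < 1 / 2) {n J K R : ℕ} (hR : 0 < R)
    (P : Set ℂ) (hP : P ∈ Skel α η n J K R) : Good P := by
  rcases skel_cases h0 h1 hP with ⟨j, -, r, -, rfl⟩ | ⟨x, -, a, b, -, hab, -, -, rfl⟩ |
    ⟨j, -, -, rfl⟩ | rfl | rfl
  · exact good_par _ _ fun h => vv_im hα r (by simpa using congrArg Complex.im h)
  · exact good_seg (wp_ne _ _ _ _ hab)
  · refine good_seg fun h => ?_
    have := congrArg Complex.im h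
    simp [hα.ne', hR.ne'] at this
  · exact good_seg (by norm_num)
  · refine good_seg fun h => ?_
    have := congrArg Complex.re h
    simp at this

theorem wp_box {α : ℝ} (hα : 0 < α) (hα1 : α ≤ 1) {n K R : ℕ} {x : ℕ × ℕ × ℕ} (hx : x ∈ WI K R n)
    {t : ℝ} (h0 : 0 ≤ t) (h1 : t ≤ 1) :
    -1 < (wp α x.1 x.2.1 (ss n x.2.2) t).re ∧ (wp α x.1 x.2.1 (ss n x.2.2) t).re < 2 * K + 2 ∧
      0 < (wp α x.1 x.2.1 (ss n x.2.2) t).im ∧ (wp α x.1 x.2.1 (ss n x.2.2) t).im ≤ 2 * R := by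
  obtain ⟨j, r, i⟩ := x
  have hj : (j : ℝ) + 1 ≤ K := by exact_mod_cast hx.1
  have hr : (r : ℝ) + 1 ≤ R := by exact_mod_cast hx.2.1
  have hs := ss_mem (show i < n from hx.2.2)
  have hj0 : (0 : ℝ) ≤ j := Nat.cast_nonneg j
  have hr0 : (0 : ℝ) ≤ r := Nat.cast_nonneg r
  have := row_bd' r (u := ss n i + t) (by linarith) (by linarith)
  simp only [wp_re, wp_im]
  refine ⟨by linarith, by linarith, mul_pos hα (by linarith), by nlinarith⟩

theorem skel_box {α η : ℝ} (hα : 0 < α) (hα1 : α ≤ 1) (h0 : 0 < η) (h1 : η < 1 / 2) {n J K R : ℕ}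
    (hR : 0 < R) {P : Set ℂ} (hP : P ∈ Skel α η n J K R) {z : ℂ} (hz : z ∈ P) :
    z = ((-1 : ℝ) : ℂ) ∨ z = ((2 * K + 2 : ℝ) : ℂ) ∨
      (-1 < z.re ∧ z.re < 2 * K + 2 ∧ |z.im| ≤ 2 * R) := by
  have hR0 : (0 : ℝ) < R := by positivity
  have hK0 : (0 : ℝ) ≤ K := by positivity
  rcases skel_cases h0 h1 hP with ⟨j, hj, r, hr, rfl⟩ | ⟨x, hx, a, b, ha, hab, hb, -, rfl⟩ |
    ⟨j, hj, -, rfl⟩ | rfl | rfl
  · obtain ⟨s, t, a1, a2, a3, a4, rfl⟩ := mem_arm.1 hz
    have hj : (j : ℝ) ≤ K := by exact_mod_cast hj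
    have hr : (r : ℝ) + 1 ≤ R := by exact_mod_cast hr
    have hj0 : (0 : ℝ) ≤ j := Nat.cast_nonneg j
    have hr0 : (0 : ℝ) ≤ r := Nat.cast_nonneg r
    have := row_bd r (u := s + t) (by linarith) (by linarith)
    right; right
    rw [pt_re, pt_im, abs_of_nonneg (mul_nonneg hα.le (by linarith))]
    exact ⟨by linarith, by linarith, by nlinarith⟩
  · obtain ⟨t, a1, a2, rfl⟩ := (mem_wseg hab.le).1 hz
    have := wp_box hα hα1 hx (t := t) (by linarith) (by linarith)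
    right; right
    exact ⟨this.1, this.2.1, by rw [abs_of_pos this.2.2.1]; exact this.2.2.2⟩
  · rw [bus, mem_vseg (by positivity)] at hz
    have hj : (j : ℝ) + 1 ≤ K := by exact_mod_cast hj
    have hj0 : (0 : ℝ) ≤ j := Nat.cast_nonneg j
    right; right
    rw [hz.1, abs_of_nonneg hz.2.1]
    exact ⟨by linarith, by linarith, by nlinarith [hz.2.2]⟩
  · obtain ⟨a1, a2, a3⟩ := mem_hseg (by norm_num) hz
    rcases a1.eq_or_lt with h | h
    · left; exact Complex.ext (by simp [← h]) (by simp [a3])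
    · right; right; rw [a3]; exact ⟨h, by linarith, by simp⟩
  · obtain ⟨a1, a2, a3⟩ := mem_hseg (by linarith) hz
    rcases a2.eq_or_lt with h | h
    · right; left; exact Complex.ext (by rw [h, Complex.ofReal_re]) (by rw [a3, Complex.ofReal_im])
    · right; right; rw [a3]; exact ⟨by linarith, h, by simp⟩

theorem skel_sep {α η : ℝ} (hα : 0 < α) (h0 : 0 < η) (h1 : η < 1 / 2) {n J K R : ℕ}
    (hR : 0 < R) {P : Set ℂ} (hP : P ∈ Skel α η n J K R) {k : ℕ} (hk : k < K) (hJ : ¬ J ∣ k) :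
    (∀ z ∈ P, 2 * k + 3 / 2 < nu α z) ∨ ∀ z ∈ P, ¬ (2 * k + 3 / 2 < nu α z) := by
  have hk0 : (0 : ℝ) ≤ k := by positivity
  have hkK : (k : ℝ) + 1 ≤ K := by exact_mod_cast hk
  rcases skel_cases h0 h1 hP with ⟨j, hj, r, hr, rfl⟩ | ⟨x, hx, a, b, ha, hab, hb, hc, rfl⟩ |
    ⟨j, hj, hd, rfl⟩ | rfl | rfl
  · rcases lt_or_ge k j with h | h
    · left; intro z hz
      obtain ⟨s, t, a1, a2, a3, a4, rfl⟩ := mem_arm.1 hz
      have h : (k : ℝ) + 1 ≤ j := by exact_mod_cast h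
      rw [nu_pt hα _ _ (by linarith) (by linarith)]; linarith
    · right; intro z hz
      obtain ⟨s, t, a1, a2, a3, a4, rfl⟩ := mem_arm.1 hz
      have h : (j : ℝ) ≤ k := by exact_mod_cast h
      rw [nu_pt hα _ _ (by linarith) (by linarith)]; linarith
  · have hs := ss_mem (show x.2.2 < n from hx.2.2)
    have key : ∀ z ∈ wseg α n x a b, 2 * x.1 + 1 + a ≤ nu α z ∧ nu α z ≤ 2 * x.1 + 1 + b := by
      intro z hz
      obtain ⟨t, a1, a2, rfl⟩ := (mem_wseg hab.le).1 hz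
      rw [nu_wp hα _ _ (by linarith) (by linarith)]
      constructor <;> linarith
    rcases lt_trichotomy k x.1 with h | h | h
    · left; intro z hz
      have h : (k : ℝ) + 1 ≤ x.1 := by exact_mod_cast h
      linarith [key z hz]
    · rcases hc with hc | hc | hc
      · right; intro z hz; rw [h]; linarith [key z hz]
      · left; intro z hz; rw [h]; linarith [key z hz]
      · exact absurd (h ▸ hc) hJ
    · right; intro z hz
      have h : (x.1 : ℝ) + 1 ≤ k := by exact_mod_cast h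
      linarith [key z hz]
  · have key : ∀ z ∈ bus α R j, 2 * j + 1 / 2 ≤ nu α z ∧ nu α z ≤ 2 * j + 5 / 2 := by
      intro z hz
      rw [bus, mem_vseg (by positivity)] at hz
      have := tri_bd (z.im / α)
      rw [nu, hz.1]
      constructor <;> linarith
    rcases lt_trichotomy k j with h | h | h
    · left; intro z hz
      have h : (k : ℝ) + 1 ≤ j := by exact_mod_cast h
      linarith [key z hz]
    · exact absurd (h ▸ hd) hJ
    · right; intro z hz
      have h : (j : ℝ) + 1 ≤ k := by exact_mod_cast h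
      linarith [key z hz]
  · right; intro z hz
    obtain ⟨a1, a2, a3⟩ := mem_hseg (by norm_num) hz
    rw [nu, a3, zero_div, tri_zero]; linarith
  · left; intro z hz
    obtain ⟨a1, a2, a3⟩ := mem_hseg (by linarith) hz
    rw [nu, a3, zero_div, tri_zero]; linarith

theorem skel_mid {α η : ℝ} (hα : 0 < α) (hα1 : α ≤ 1) (h0 : 0 < η) (h1 : η < 1 / 2) {n J K R : ℕ}
    (hR : 0 < R) {P : Set ℂ} (hP : P ∈ Skel α η n J K R) {x : ℕ × ℕ × ℕ} (hx : x ∈ WI K R n)
    (hJ : ¬ J ∣ x.1) : Disjoint (wseg α n x η (1 - η)) P ∨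
      ∀ z ∈ P, ∃ t : ℝ, (t ≤ 0 ∨ 1 ≤ t) ∧ z = wp α x.1 x.2.1 (ss n x.2.2) η +
        t * (wp α x.1 x.2.1 (ss n x.2.2) (1 - η) - wp α x.1 x.2.1 (ss n x.2.2) η) := by
  have hs := ss_mem (show x.2.2 < n from hx.2.2)
  have hη : η ≤ 1 - η := by linarith
  rcases skel_cases h0 h1 hP with ⟨j, hj, r, hr, rfl⟩ | ⟨y, hy, a, b, ha, hab, hb, hc, rfl⟩ |
    ⟨j, hj, hd, rfl⟩ | rfl | rfl
  · left
    rw [disjoint_left]
    intro z hz hz'
    obtain ⟨t, a1, a2, e1⟩ := (mem_wseg hη).1 hz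
    obtain ⟨s', t', b1, b2, b3, b4, e2⟩ := mem_arm.1 hz'
    have c1 := nu_wp hα x.1 x.2.1 (s := ss n x.2.2) (t := t) (by linarith) (by linarith)
    have c2 := nu_pt hα j r (s := s') (t := t') (by linarith) (by linarith)
    rw [← e1] at c1
    rw [← e2, c1] at c2
    have d1 : (x.1 : ℝ) < j := by linarith
    have d2 : (j : ℝ) < x.1 + 1 := by linarith
    have d1 : x.1 < j := by exact_mod_cast d1
    have d2 : j < x.1 + 1 := by exact_mod_cast d2
    omega
  · by_cases hxy : x = y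
    · subst hxy
      right
      intro z hz
      obtain ⟨t, a1, a2, rfl⟩ := (mem_wseg hab.le).1 hz
      have hpos : 0 < 1 - 2 * η := by linarith
      refine ⟨(t - η) / (1 - 2 * η), ?_, ?_⟩
      · rcases hc with hc | hc | hc
        · left; exact div_nonpos_of_nonpos_of_nonneg (by linarith) hpos.le
        · right; rw [le_div_iff₀ hpos]; linarith
        · exact absurd hc hJ
      · have : (1 - 2 * η : ℂ) ≠ 0 := by exact_mod_cast hpos.ne'
        simp only [wp]; push_cast; field_simp; ring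
    · left
      rw [disjoint_left]
      intro z hz hz'
      have hs' := ss_mem (show y.2.2 < n from hy.2.2)
      obtain ⟨t, a1, a2, e1⟩ := (mem_wseg hη).1 hz
      obtain ⟨t', b1, b2, e2⟩ := (mem_wseg hab.le).1 hz'
      obtain ⟨c1, c2, c3⟩ := wp_inj hα hs.1 hs.2 hs'.1 hs'.2 (by linarith) (by linarith)
        (by linarith) (by linarith) (e1.symm.trans e2)
      exact hxy (Prod.ext c1 (Prod.ext c2 (ss_inj (Nat.zero_lt_of_lt hx.2.2) c3)))
  · left
    rw [disjoint_left]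
    intro z hz hz'
    obtain ⟨t, a1, a2, rfl⟩ := (mem_wseg hη).1 hz
    rw [bus, mem_vseg (by positivity), wp_re] at hz'
    have d1 : (x.1 : ℝ) < j + 1 := by linarith [hz'.1]
    have d2 : (j : ℝ) < x.1 + 1 := by linarith [hz'.1]
    have d1 : x.1 < j + 1 := by exact_mod_cast d1
    have d2 : j < x.1 + 1 := by exact_mod_cast d2
    exact hJ ((show j = x.1 by omega) ▸ hd)
  · left
    rw [disjoint_left]
    intro z hz hz'
    obtain ⟨t, a1, a2, rfl⟩ := (mem_wseg hη).1 hz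
    have := (wp_box hα hα1 hx (t := t) (by linarith) (by linarith)).2.2.1
    linarith [(mem_hseg (by norm_num) hz').2.2]
  · left
    rw [disjoint_left]
    intro z hz hz'
    obtain ⟨t, a1, a2, rfl⟩ := (mem_wseg hη).1 hz
    have := (wp_box hα hα1 hx (t := t) (by linarith) (by linarith)).2.2.1
    linarith [(mem_hseg (by linarith) hz').2.2]

open Classical in
noncomputable def cnt (J K : ℕ) (y : ℝ) : ℕ :=
  ((Finset.range K).filter fun k : ℕ => ¬ J ∣ k ∧ (2 * k + 3 / 2 : ℝ) < y).card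

theorem cnt_congr {J K : ℕ} {y y' : ℝ}
    (h : ∀ k < K, ¬ J ∣ k → ((2 * k + 3 / 2 : ℝ) < y ↔ (2 * k + 3 / 2 : ℝ) < y')) :
    cnt J K y = cnt J K y' := by
  unfold cnt
  congr 1
  refine Finset.filter_congr fun k hk => ?_
  exact and_congr_right fun h' => h k (Finset.mem_range.1 hk) h'

theorem cnt_jump {J K j : ℕ} (hj : j < K) (hJ : ¬ J ∣ j) {η : ℝ} (h0 : 0 < η) (h1 : η < 1 / 2) :
    cnt J K (2 * j + 1 + (1 - η)) = cnt J K (2 * j + 1 + η) + 1 := by
  classical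
  unfold cnt
  rw [← Finset.card_insert_of_notMem (a := j) (by simp; intros; linarith)]
  congr 1
  ext k
  simp only [Finset.mem_filter, Finset.mem_range, Finset.mem_insert]
  rcases lt_trichotomy k j with h | rfl | h
  · have h' : (k : ℝ) + 1 ≤ j := by exact_mod_cast h
    have e1 : (2 * k + 3 / 2 : ℝ) < 2 * j + 1 + (1 - η) := by linarith
    have e2 : (2 * k + 3 / 2 : ℝ) < 2 * j + 1 + η := by linarith
    simp [e1, e2, h.ne]
  · have e1 : (2 * k + 3 / 2 : ℝ) < 2 * k + 1 + (1 - η) := by linarith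
    simp [e1, hj, hJ]
  · have h' : (j : ℝ) + 1 ≤ k := by exact_mod_cast h
    have e1 : ¬ (2 * k + 3 / 2 : ℝ) < 2 * j + 1 + (1 - η) := by linarith
    have e2 : ¬ (2 * k + 3 / 2 : ℝ) < 2 * j + 1 + η := by linarith
    simp [e1, e2, h.ne']

theorem cnt_zero (J K : ℕ) : cnt J K 0 = 0 := by
  unfold cnt
  rw [Finset.card_eq_zero, Finset.filter_eq_empty_iff]
  intro k _ h
  have : (0 : ℝ) ≤ k := Nat.cast_nonneg k
  linarith [h.2]

theorem cnt_top {J M : ℕ} : J * M ≤ cnt J (J * M) (2 * (J * M : ℕ) + 3) + M := by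
  classical
  have h1 : Finset.range (J * M) ⊆ ((Finset.range (J * M)).filter fun k : ℕ =>
      ¬ J ∣ k ∧ (2 * k + 3 / 2 : ℝ) < 2 * (J * M : ℕ) + 3) ∪ (Finset.range M).image (J * ·) := by
    intro k hk
    rw [Finset.mem_union]
    by_cases h : J ∣ k
    · right
      obtain ⟨c, rfl⟩ := h
      exact Finset.mem_image.2 ⟨c, Finset.mem_range.2
        (lt_of_mul_lt_mul_left (Finset.mem_range.1 hk) (Nat.zero_le _)), rfl⟩
    · left
      have : (k : ℝ) < (J * M : ℕ) := by exact_mod_cast Finset.mem_range.1 hk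
      exact Finset.mem_filter.2 ⟨hk, h, by linarith⟩
  have h2 := (Finset.card_le_card h1).trans (Finset.card_union_le _ _)
  have h3 : ((Finset.range M).image (J * ·)).card ≤ M := by
    simpa using Finset.card_image_le (s := Finset.range M) (f := (J * ·))
  rw [Finset.card_range] at h2
  unfold cnt
  convert h2.trans (Nat.add_le_add_left h3 _)

theorem step {H S α : ℝ} (hM : Mat H S) (hH : 1 ≤ H) (hS : 1 ≤ S) (h0 : 0 < α) (h1 : α ≤ 1) :
    Mat (H * (1 + 5 * α ^ 2)) (S + α / 8) := by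
  intro p' q' hpq' ρ hρ
  set η := α / (64 * S) with hη
  have hη0 : 0 < η := by positivity
  have hηS : η * S = α / 64 := by rw [hη]; field_simp
  have hη1 : η ≤ 1 / 64 := by nlinarith
  have hη2 : η < 1 / 2 := by linarith
  obtain ⟨J, hJ⟩ := exists_nat_ge (32 * S / α)
  have hJ' : 32 * S ≤ J * α := (div_le_iff₀ h0).1 hJ
  have hJ0 : 0 < J := by
    rcases Nat.eq_zero_or_pos J with rfl | h
    · simp at hJ'; linarith
    · exact h
  obtain ⟨n, hn⟩ := exists_nat_ge (4 / α ^ 2)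
  have hn' : 4 ≤ n * α ^ 2 := (div_le_iff₀ (by positivity)).1 hn
  have hn0 : 0 < n := by
    rcases Nat.eq_zero_or_pos n with rfl | h
    · simp at hn'; linarith
    · exact h
  obtain ⟨R, hR⟩ := exists_nat_ge ((12 + J * (6 * H + 12)) / α)
  have hR' : 12 + J * (6 * H + 12) ≤ R * α := (div_le_iff₀ h0).1 hR
  have hR0 : 0 < R := by
    rcases Nat.eq_zero_or_pos R with rfl | h
    · have : (0 : ℝ) ≤ J * (6 * H + 12) := by positivity
      simp only [Nat.cast_zero, zero_mul] at hR'; linarith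
    · exact h
  obtain ⟨M, hMM⟩ := exists_nat_ge (max (8 * (3 * S + 1) / α) (max ((6 * R + 3) / α ^ 2) (2 * R / ρ)))
  have hMK : (M : ℝ) ≤ (J * M : ℕ) := by exact_mod_cast Nat.le_mul_of_pos_left M hJ0
  have hM1 : 8 * (3 * S + 1) ≤ (J * M : ℕ) * α :=
    (div_le_iff₀ h0).1 ((le_max_left _ _).trans (hMM.trans hMK))
  have hM2 : 6 * R + 3 ≤ (J * M : ℕ) * α ^ 2 := (div_le_iff₀ (by positivity)).1
    (((le_max_left _ _).trans (le_max_right _ _)).trans (hMM.trans hMK))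
  have hM3 : 2 * R ≤ (J * M : ℕ) * ρ := (div_le_iff₀ hρ).1
    (((le_max_right _ _).trans (le_max_right _ _)).trans (hMM.trans hMK))
  have hM0 : 0 < M := by
    rcases Nat.eq_zero_or_pos M with rfl | h
    · simp at hM1; linarith
    · exact h
  set K := J * M with hK
  have hK0 : (0 : ℝ) ≤ K := by positivity
  have hlt : (-1 : ℝ) < 2 * K + 2 := by linarith
  refine Gad.transfer (p := ((-1 : ℝ) : ℂ)) (q := ((2 * K + 2 : ℝ) : ℂ)) ?_
    (by exact_mod_cast hlt.ne) hpq'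
  have hbox : ∀ z : ℂ, -1 < z.re → z.re < 2 * K + 2 → |z.im| ≤ 2 * R →
      z ∈ OBox ((-1 : ℝ) : ℂ) ((2 * K + 2 : ℝ) : ℂ) ρ := fun z a1 a2 a3 =>
    (mem_OBox_real hlt).2 ⟨a1, a2, by nlinarith⟩
  let ι := {x : ℕ × ℕ × ℕ // x ∈ WI K R n ∧ ¬ J ∣ x.1}
  have : Finite ι := ((WI_finite K R n).subset fun x hx => hx.1 :
    {x : ℕ × ℕ × ℕ | x ∈ WI K R n ∧ ¬ J ∣ x.1}.Finite).to_subtype
  set c := 2 * S * (1 - 2 * η) - α / 2 with hc
  have hc0 : 0 ≤ c := by nlinarith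
  let F : ℂ → ℝ := fun z => α / 2 * nu α z + c * cnt J K (nu α z)
  have hηη : η < 1 - η := by linarith
  have hFd : ∀ x : ι, F (wp α x.1.1 x.1.2.1 (ss n x.1.2.2) (1 - η)) -
      F (wp α x.1.1 x.1.2.1 (ss n x.1.2.2) η) = α / 2 * (1 - 2 * η) + c := by
    intro x
    have hs := ss_mem (show x.1.2.2 < n from x.2.1.2.2)
    simp only [F]
    rw [nu_wp h0 _ _ (by linarith) (by linarith), nu_wp h0 _ _ (by linarith) (by linarith),
      cnt_jump x.2.1.1 x.2.2 hη0 hη2]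
    push_cast; ring
  have hnorm : ∀ (j r : ℕ) (s a b : ℝ), a ≤ b →
      ‖wp α j r s b - wp α j r s a‖ = (b - a) * ‖2 + vv α r‖ := by
    intro j r s a b hab
    rw [wp_sub, norm_mul, Complex.norm_real, Real.norm_eq_abs, abs_of_nonneg (by linarith)]
  obtain ⟨𝒜, g1, g2, g3, g4, ⟨G, g5, g6⟩, g7⟩ := subst hM (skel_finite α η n J K R)
    (skel_good h0 hη0 hη2 hR0) (ι := ι) (fun x => wp α x.1.1 x.1.2.1 (ss n x.1.2.2) η)
    (fun x => wp α x.1.1 x.1.2.1 (ss n x.1.2.2) (1 - η)) (fun x => wp_ne _ _ _ _ hηη)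
    (by
      intro x y hxy
      rw [disjoint_left]
      intro z hz hz'
      have hs := ss_mem (show x.1.2.2 < n from x.2.1.2.2)
      have hs' := ss_mem (show y.1.2.2 < n from y.2.1.2.2)
      obtain ⟨t, a1, a2, e1⟩ := (mem_wseg hηη.le).1 hz
      obtain ⟨t', b1, b2, e2⟩ := (mem_wseg hηη.le).1 hz'
      obtain ⟨c1, c2, c3⟩ := wp_inj h0 hs.1 hs.2 hs'.1 hs'.2 (by linarith) (by linarith)
        (by linarith) (by linarith) (e1.symm.trans e2)
      exact hxy (Subtype.ext (Prod.ext c1 (Prod.ext c2 (ss_inj hn0 c3)))))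
    (isOpen_OBox ((-1 : ℝ) : ℂ) ((2 * K + 2 : ℝ) : ℂ) ρ)
    (by
      intro x z hz
      obtain ⟨t, a1, a2, rfl⟩ := (mem_wseg hηη.le).1 hz
      have := wp_box h0 h1 x.2.1 (t := t) (by linarith) (by linarith)
      exact hbox _ this.1 this.2.1 (by rw [abs_of_pos this.2.2.1]; exact this.2.2.2))
    (fun P hP x => skel_mid h0 h1 hη0 hη2 hR0 hP x.2.1 x.2.2) (F := F)
    (by
      intro P hP u hu v hv
      have : cnt J K (nu α u) = cnt J K (nu α v) := cnt_congr fun k hk hk' => by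
        rcases skel_sep h0 hη0 hη2 hR0 hP hk hk' with h | h
        · simp [h u hu, h v hv]
        · simp [h u hu, h v hv]
      simp only [F, this, add_sub_add_right_eq_sub]
      exact nu_lip h0 h1 u v)
    (fun x => by have := hFd x; nlinarith)
    (fun x => by
      rw [hFd x, hnorm _ _ _ _ _ hηη.le]
      have := norm_w_ge α x.1.2.1
      have h3 : S * (1 - 2 * η) * 2 ≤ S * (1 - 2 * η) * ‖2 + vv α x.1.2.1‖ := by
        gcongr; nlinarith
      nlinarith)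
  have s1 : segment ℝ ((-1 : ℝ) : ℂ) ((0 : ℝ) : ℂ) ∈ Skel α η n J K R := by simp [Skel]
  have s2 : segment ℝ ((2 * K : ℝ) : ℂ) ((2 * K + 2 : ℝ) : ℂ) ∈ Skel α η n J K R := by
    simp only [Skel, mem_union, mem_insert_iff, mem_singleton_iff, or_true]
  have hn1 : ‖((2 * K + 2 : ℝ) : ℂ) - ((-1 : ℝ) : ℂ)‖ = 2 * K + 3 := by
    rw [← Complex.ofReal_sub, Complex.norm_real, Real.norm_eq_abs, abs_of_pos (by linarith)]; ring
  refine ⟨𝒜, g1, g3, ⟨_, g2 s1, left_mem_segment ℝ _ _⟩, ⟨_, g2 s2, right_mem_segment ℝ _ _⟩, ?_,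
    ⟨G, g5, ?_⟩, ?_⟩
  · intro P hP z hz
    rcases g4 P hP with h | h
    · rcases skel_box h0 h1 hη0 hη2 hR0 h hz with h | h | h
      · exact Or.inl h
      · exact Or.inr (Or.inl h)
      · exact Or.inr (Or.inr (hbox z h.1 h.2.1 h.2.2))
    · exact Or.inr (Or.inr (h hz))
  · rw [g6 _ s1 _ (left_mem_segment ℝ _ _), g6 _ s2 _ (right_mem_segment ℝ _ _), hn1]
    have e1 : nu α ((-1 : ℝ) : ℂ) = 0 := by simp [nu, tri_zero]
    have e2 : nu α ((2 * K + 2 : ℝ) : ℂ) = 2 * K + 3 := by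
      rw [nu, Complex.ofReal_re, Complex.ofReal_im, zero_div, tri_zero]; ring
    simp only [F, e1, e2, cnt_zero]
    have e3 : (K : ℝ) ≤ cnt J K (2 * K + 3) + M := by exact_mod_cast cnt_top (J := J) (M := M)
    have e4 : (K : ℝ) = J * M := by rw [hK]; push_cast; ring
    have e5 : c * (K - M) ≤ c * cnt J K (2 * K + 3) := by gcongr; linarith
    have hM0' : (0 : ℝ) ≤ M := by positivity
    have e6 : c * M ≤ 2 * S * M := by gcongr; nlinarith
    have e7 : 32 * S * M ≤ K * α := by rw [e4]; nlinarith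
    have e8 : c * K = 2 * S * K - α / 16 * K - α / 2 * K := by
      rw [hc]; linear_combination (-4 * K) * hηS
    push_cast
    nlinarith
  · intro h B hB hA
    have hsk : ∀ P ∈ Skel α η n J K R, LipB h B P := fun P hP => (hA P (g2 hP)).1
    have key := hol_est h0 h1 hH hB hn0 hJ0 hM0 hR0 (h := h)
      (fun j hj r hr => hA _ (g2 (Or.inl ⟨(j, r), ⟨hj, hr⟩, rfl⟩))) ?_ ?_
      (p := ((-1 : ℝ) : ℂ)) (q := ((2 * K + 2 : ℝ) : ℂ)) ?_ ?_
    · rw [hn1]
      rw [← hK] at key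
      have hR1 : (0 : ℝ) < R := by positivity
      have hn2 : (4 : ℝ) / n ≤ α ^ 2 := by
        rw [div_le_iff₀ (by positivity)]; linarith
      have a1 : α * ((K + 1) * ((12 + 2 * R * α + J * (6 * H + 12)) * B)) ≤
          R * ((K + 1) * (3 * α ^ 2 * B)) := by
        calc _ ≤ α * ((K + 1) * ((3 * R * α) * B)) := by gcongr; linarith
          _ = _ := by ring
      have a2 : ‖h ((2 * K + 2 : ℝ) : ℂ) - h ((-1 : ℝ) : ℂ)‖ ≤ (6 * R + 3) * B +
          (K + 1) * (3 * α ^ 2 * B) + K * ((H * (2 + α ^ 2 / 4) + 4 / n) * B) +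
          (K + 1) * (3 * α ^ 2 * B) := by
        refine le_of_mul_le_mul_left ?_ hR1
        linarith
      refine a2.trans ?_
      have a3 : (6 * R + 3) + (K + 1) * (3 * α ^ 2) + K * (H * (2 + α ^ 2 / 4) + 4 / n) +
          (K + 1) * (3 * α ^ 2) ≤ H * (1 + 5 * α ^ 2) * (2 * K + 3) := by
        have b1 : K * (4 / n : ℝ) ≤ K * α ^ 2 := by gcongr
        have b2 : 0 ≤ (H - 1) * (K * α ^ 2) := by have := sub_nonneg.2 hH; positivity
        have b3 : 0 ≤ (H - 1) * α ^ 2 := by have := sub_nonneg.2 hH; positivity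
        have b4 : 0 ≤ K * α ^ 2 := by positivity
        nlinarith
      calc _ = ((6 * R + 3) + (K + 1) * (3 * α ^ 2) + K * (H * (2 + α ^ 2 / 4) + 4 / n) +
          (K + 1) * (3 * α ^ 2)) * B := by ring
        _ ≤ (H * (1 + 5 * α ^ 2) * (2 * K + 3)) * B := by gcongr
        _ = _ := by ring
    · intro j hj r hr i hi
      have hx : (j, r, i) ∈ WI K R n := ⟨hj, hr, hi⟩
      have hHB : B ≤ H * B := le_mul_of_one_le_left hB hH
      by_cases hd : J ∣ j
      · have := hsk _ (Or.inr (Or.inr (Or.inr (Or.inl ⟨(j, r, i), ⟨hx, hd⟩, rfl⟩)))) _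
          (right_mem_segment ℝ _ _) _ (left_mem_segment ℝ _ _)
        rw [hnorm _ _ _ _ _ zero_le_one, sub_zero, one_mul] at this
        exact this.trans (by gcongr)
      · have b1 := hsk _ (Or.inr (Or.inr (Or.inl ⟨(j, r, i), hx, rfl⟩))) _
          (right_mem_segment ℝ _ _) _ (left_mem_segment ℝ _ _)
        have b2 := g7 h B hB hA ⟨(j, r, i), hx, hd⟩
        have b3 := hsk _ (Or.inr (Or.inl ⟨(j, r, i), hx, rfl⟩)) _
          (right_mem_segment ℝ _ _) _ (left_mem_segment ℝ _ _)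
        rw [hnorm _ _ _ _ _ (by linarith)] at b1 b2 b3
        refine (tri3 _ _ _ _ b1 b2 b3).trans ?_
        have : B * (η * ‖2 + vv α r‖) ≤ H * B * (η * ‖2 + vv α r‖) := by gcongr
        simp only
        nlinarith
    · intro j hj hd
      exact ⟨hsk _ (Or.inr (Or.inr (Or.inr (Or.inr (Or.inl ⟨j, ⟨hj, hd⟩, rfl⟩))))), fun r hr =>
        hsk _ (Or.inr (Or.inr (Or.inr (Or.inl ⟨(j, r, 0), ⟨⟨hj, hr, hn0⟩, hd⟩, rfl⟩))))⟩
    · simpa using hsk _ s1 _ (right_mem_segment ℝ _ _) _ (left_mem_segment ℝ _ _)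
    · have := hsk _ s2 _ (right_mem_segment ℝ _ _) _ (left_mem_segment ℝ _ _)
      rw [← Complex.ofReal_sub, Complex.norm_real, Real.norm_eq_abs, add_sub_cancel_left,
        abs_two, mul_comm B] at this
      exact this

theorem mat_iter {α : ℝ} (h0 : 0 < α) (h1 : α ≤ 1) (k : ℕ) :
    Mat ((1 + 5 * α ^ 2) ^ k) (1 + k * α / 8) := by
  induction k with
  | zero => simpa using mat_base
  | succ k ih =>
    have := step ih (one_le_pow₀ (by nlinarith)) (by
      have : 0 ≤ k * α / 8 := by positivity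
      linarith) h0 h1
    rw [← pow_succ] at this
    convert this using 1
    push_cast; ring

theorem mat_final (S : ℝ) : Mat (Real.exp 5) S := by
  obtain ⟨m, hm⟩ := exists_nat_ge (8 * |S| + 1)
  have hm1 : (1 : ℝ) ≤ m := by linarith [abs_nonneg S]
  have hm0 : (0 : ℝ) < m := by linarith
  intro p q hpq ρ hρ
  refine (mat_iter (α := 1 / m) (by positivity) ((div_le_one hm0).2 hm1) (m ^ 2) p q hpq ρ hρ).mono
    ?_ ?_
  · calc _ ≤ (Real.exp (5 * (1 / m) ^ 2)) ^ (m ^ 2) := by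
          gcongr
          linarith [Real.add_one_le_exp (5 * (1 / (m : ℝ)) ^ 2)]
      _ = _ := by
          rw [← Real.exp_nat_mul]; congr 1; push_cast; field_simp
  · have : ((m ^ 2 : ℕ) : ℝ) * (1 / m) / 8 = m / 8 := by push_cast; field_simp
    rw [this]
    linarith [le_abs_self S]

end Pool.Agent.P.MP_192c68_an
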